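import Mathlib

/-!
# The 165-vertex graph: data and finite checks

The list `EC` has the 280 edges `(a, b)` of the graph and the integer coordinates of `a` and `b`.
-/

namespace Pool.Agent.Run7.h801.CogData

/-- The edges `(a, b)` of the graph, with the coordinates of `a` and of `b`. -/
def EC : List (ℕ × ℕ × ℕ × ℕ × ℕ × ℕ) := [
  (0, 2, 500, 0, 385, 500), (2, 1, 385, 500, 320, 1000), (0, 3, 500, 0, 420, 500),
  (3, 1, 420, 500, 320, 1000), (0, 4, 500, 0, 435, 500), (4, 1, 435, 500, 320, 1000),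
  (5, 6, 430, 350, 413, 450), (6, 7, 413, 450, 390, 550), (7, 8, 390, 550, 374, 650),
  (2, 5, 385, 500, 430, 350), (2, 7, 385, 500, 390, 550), (3, 6, 420, 500, 413, 450),
  (3, 8, 420, 500, 374, 650), (0, 10, 500, 0, 445, 500), (10, 9, 445, 500, 439, 1020),
  (0, 11, 500, 0, 480, 500), (11, 9, 480, 500, 439, 1020), (0, 12, 500, 0, 495, 500),
  (12, 9, 495, 500, 439, 1020), (13, 14, 472, 350, 467, 450), (14, 15, 467, 450, 456, 550),
  (15, 16, 456, 550, 452, 650), (10, 13, 445, 500, 472, 350), (10, 15, 445, 500, 456, 550),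
  (11, 14, 480, 500, 467, 450), (11, 16, 480, 500, 452, 650), (0, 18, 500, 0, 505, 500),
  (18, 17, 505, 500, 561, 1021), (0, 19, 500, 0, 540, 500), (19, 17, 540, 500, 561, 1021),
  (0, 20, 500, 0, 555, 500), (20, 17, 555, 500, 561, 1021), (21, 22, 514, 350, 521, 450),
  (22, 23, 521, 450, 522, 550), (23, 24, 522, 550, 530, 650), (18, 21, 505, 500, 514, 350),
  (18, 23, 505, 500, 522, 550), (19, 22, 540, 500, 521, 450), (19, 24, 540, 500, 530, 650),
  (0, 26, 500, 0, 565, 500), (26, 25, 565, 500, 680, 1001), (0, 27, 500, 0, 600, 500),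
  (27, 25, 600, 500, 680, 1001), (0, 28, 500, 0, 615, 500), (28, 25, 615, 500, 680, 1001),
  (29, 30, 556, 350, 575, 450), (30, 31, 575, 450, 588, 550), (31, 32, 588, 550, 608, 650),
  (26, 29, 565, 500, 556, 350), (26, 31, 565, 500, 588, 550), (27, 30, 600, 500, 575, 450),
  (27, 32, 600, 500, 608, 650), (1, 9, 320, 1000, 439, 1020), (9, 17, 439, 1020, 561, 1021),
  (17, 25, 561, 1021, 680, 1001), (33, 35, 1500, 600, 1385, 1100),
  (35, 34, 1385, 1100, 1320, 1600), (33, 36, 1500, 600, 1420, 1100),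
  (36, 34, 1420, 1100, 1320, 1600), (33, 37, 1500, 600, 1435, 1100),
  (37, 34, 1435, 1100, 1320, 1600), (38, 39, 1430, 950, 1413, 1050),
  (39, 40, 1413, 1050, 1390, 1150), (40, 41, 1390, 1150, 1374, 1250),
  (35, 38, 1385, 1100, 1430, 950), (35, 40, 1385, 1100, 1390, 1150),
  (36, 39, 1420, 1100, 1413, 1050), (36, 41, 1420, 1100, 1374, 1250),
  (33, 43, 1500, 600, 1445, 1100), (43, 42, 1445, 1100, 1439, 1620),
  (33, 44, 1500, 600, 1480, 1100), (44, 42, 1480, 1100, 1439, 1620),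
  (33, 45, 1500, 600, 1495, 1100), (45, 42, 1495, 1100, 1439, 1620),
  (46, 47, 1472, 950, 1467, 1050), (47, 48, 1467, 1050, 1456, 1150),
  (48, 49, 1456, 1150, 1452, 1250), (43, 46, 1445, 1100, 1472, 950),
  (43, 48, 1445, 1100, 1456, 1150), (44, 47, 1480, 1100, 1467, 1050),
  (44, 49, 1480, 1100, 1452, 1250), (33, 51, 1500, 600, 1505, 1100),
  (51, 50, 1505, 1100, 1561, 1621), (33, 52, 1500, 600, 1540, 1100),
  (52, 50, 1540, 1100, 1561, 1621), (33, 53, 1500, 600, 1555, 1100),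
  (53, 50, 1555, 1100, 1561, 1621), (54, 55, 1514, 950, 1521, 1050),
  (55, 56, 1521, 1050, 1522, 1150), (56, 57, 1522, 1150, 1530, 1250),
  (51, 54, 1505, 1100, 1514, 950), (51, 56, 1505, 1100, 1522, 1150),
  (52, 55, 1540, 1100, 1521, 1050), (52, 57, 1540, 1100, 1530, 1250),
  (33, 59, 1500, 600, 1565, 1100), (59, 58, 1565, 1100, 1680, 1601),
  (33, 60, 1500, 600, 1600, 1100), (60, 58, 1600, 1100, 1680, 1601),
  (33, 61, 1500, 600, 1615, 1100), (61, 58, 1615, 1100, 1680, 1601),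
  (62, 63, 1556, 950, 1575, 1050), (63, 64, 1575, 1050, 1588, 1150),
  (64, 65, 1588, 1150, 1608, 1250), (59, 62, 1565, 1100, 1556, 950),
  (59, 64, 1565, 1100, 1588, 1150), (60, 63, 1600, 1100, 1575, 1050),
  (60, 65, 1600, 1100, 1608, 1250), (34, 42, 1320, 1600, 1439, 1620),
  (42, 50, 1439, 1620, 1561, 1621), (50, 58, 1561, 1621, 1680, 1601),
  (66, 68, 2500, 803, 2385, 1303), (68, 67, 2385, 1303, 2320, 1803),
  (66, 69, 2500, 803, 2420, 1303), (69, 67, 2420, 1303, 2320, 1803),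
  (66, 70, 2500, 803, 2435, 1303), (70, 67, 2435, 1303, 2320, 1803),
  (71, 72, 2430, 1153, 2413, 1253), (72, 73, 2413, 1253, 2390, 1353),
  (73, 74, 2390, 1353, 2374, 1453), (68, 71, 2385, 1303, 2430, 1153),
  (68, 73, 2385, 1303, 2390, 1353), (69, 72, 2420, 1303, 2413, 1253),
  (69, 74, 2420, 1303, 2374, 1453), (66, 76, 2500, 803, 2445, 1303),
  (76, 75, 2445, 1303, 2439, 1823), (66, 77, 2500, 803, 2480, 1303),
  (77, 75, 2480, 1303, 2439, 1823), (66, 78, 2500, 803, 2495, 1303),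
  (78, 75, 2495, 1303, 2439, 1823), (79, 80, 2472, 1153, 2467, 1253),
  (80, 81, 2467, 1253, 2456, 1353), (81, 82, 2456, 1353, 2452, 1453),
  (76, 79, 2445, 1303, 2472, 1153), (76, 81, 2445, 1303, 2456, 1353),
  (77, 80, 2480, 1303, 2467, 1253), (77, 82, 2480, 1303, 2452, 1453),
  (66, 84, 2500, 803, 2505, 1303), (84, 83, 2505, 1303, 2561, 1824),
  (66, 85, 2500, 803, 2540, 1303), (85, 83, 2540, 1303, 2561, 1824),
  (66, 86, 2500, 803, 2555, 1303), (86, 83, 2555, 1303, 2561, 1824),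
  (87, 88, 2514, 1153, 2521, 1253), (88, 89, 2521, 1253, 2522, 1353),
  (89, 90, 2522, 1353, 2530, 1453), (84, 87, 2505, 1303, 2514, 1153),
  (84, 89, 2505, 1303, 2522, 1353), (85, 88, 2540, 1303, 2521, 1253),
  (85, 90, 2540, 1303, 2530, 1453), (66, 92, 2500, 803, 2565, 1303),
  (92, 91, 2565, 1303, 2680, 1804), (66, 93, 2500, 803, 2600, 1303),
  (93, 91, 2600, 1303, 2680, 1804), (66, 94, 2500, 803, 2615, 1303),
  (94, 91, 2615, 1303, 2680, 1804), (95, 96, 2556, 1153, 2575, 1253),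
  (96, 97, 2575, 1253, 2588, 1353), (97, 98, 2588, 1353, 2608, 1453),
  (92, 95, 2565, 1303, 2556, 1153), (92, 97, 2565, 1303, 2588, 1353),
  (93, 96, 2600, 1303, 2575, 1253), (93, 98, 2600, 1303, 2608, 1453),
  (67, 75, 2320, 1803, 2439, 1823), (75, 83, 2439, 1823, 2561, 1824),
  (83, 91, 2561, 1824, 2680, 1804), (99, 101, 3500, 611, 3385, 1111),
  (101, 100, 3385, 1111, 3320, 1611), (99, 102, 3500, 611, 3420, 1111),
  (102, 100, 3420, 1111, 3320, 1611), (99, 103, 3500, 611, 3435, 1111),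
  (103, 100, 3435, 1111, 3320, 1611), (104, 105, 3430, 961, 3413, 1061),
  (105, 106, 3413, 1061, 3390, 1161), (106, 107, 3390, 1161, 3374, 1261),
  (101, 104, 3385, 1111, 3430, 961), (101, 106, 3385, 1111, 3390, 1161),
  (102, 105, 3420, 1111, 3413, 1061), (102, 107, 3420, 1111, 3374, 1261),
  (99, 109, 3500, 611, 3445, 1111), (109, 108, 3445, 1111, 3439, 1631),
  (99, 110, 3500, 611, 3480, 1111), (110, 108, 3480, 1111, 3439, 1631),
  (99, 111, 3500, 611, 3495, 1111), (111, 108, 3495, 1111, 3439, 1631),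
  (112, 113, 3472, 961, 3467, 1061), (113, 114, 3467, 1061, 3456, 1161),
  (114, 115, 3456, 1161, 3452, 1261), (109, 112, 3445, 1111, 3472, 961),
  (109, 114, 3445, 1111, 3456, 1161), (110, 113, 3480, 1111, 3467, 1061),
  (110, 115, 3480, 1111, 3452, 1261), (99, 117, 3500, 611, 3505, 1111),
  (117, 116, 3505, 1111, 3561, 1632), (99, 118, 3500, 611, 3540, 1111),
  (118, 116, 3540, 1111, 3561, 1632), (99, 119, 3500, 611, 3555, 1111),
  (119, 116, 3555, 1111, 3561, 1632), (120, 121, 3514, 961, 3521, 1061),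
  (121, 122, 3521, 1061, 3522, 1161), (122, 123, 3522, 1161, 3530, 1261),
  (117, 120, 3505, 1111, 3514, 961), (117, 122, 3505, 1111, 3522, 1161),
  (118, 121, 3540, 1111, 3521, 1061), (118, 123, 3540, 1111, 3530, 1261),
  (99, 125, 3500, 611, 3565, 1111), (125, 124, 3565, 1111, 3680, 1612),
  (99, 126, 3500, 611, 3600, 1111), (126, 124, 3600, 1111, 3680, 1612),
  (99, 127, 3500, 611, 3615, 1111), (127, 124, 3615, 1111, 3680, 1612),
  (128, 129, 3556, 961, 3575, 1061), (129, 130, 3575, 1061, 3588, 1161),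
  (130, 131, 3588, 1161, 3608, 1261), (125, 128, 3565, 1111, 3556, 961),
  (125, 130, 3565, 1111, 3588, 1161), (126, 129, 3600, 1111, 3575, 1061),
  (126, 131, 3600, 1111, 3608, 1261), (100, 108, 3320, 1611, 3439, 1631),
  (108, 116, 3439, 1631, 3561, 1632), (116, 124, 3561, 1632, 3680, 1612),
  (132, 134, 4500, 7, 4385, 507), (134, 133, 4385, 507, 4320, 1007),
  (132, 135, 4500, 7, 4420, 507), (135, 133, 4420, 507, 4320, 1007),
  (132, 136, 4500, 7, 4435, 507), (136, 133, 4435, 507, 4320, 1007),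
  (137, 138, 4430, 357, 4413, 457), (138, 139, 4413, 457, 4390, 557),
  (139, 140, 4390, 557, 4374, 657), (134, 137, 4385, 507, 4430, 357),
  (134, 139, 4385, 507, 4390, 557), (135, 138, 4420, 507, 4413, 457),
  (135, 140, 4420, 507, 4374, 657), (132, 142, 4500, 7, 4445, 507),
  (142, 141, 4445, 507, 4439, 1027), (132, 143, 4500, 7, 4480, 507),
  (143, 141, 4480, 507, 4439, 1027), (132, 144, 4500, 7, 4495, 507),
  (144, 141, 4495, 507, 4439, 1027), (145, 146, 4472, 357, 4467, 457),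
  (146, 147, 4467, 457, 4456, 557), (147, 148, 4456, 557, 4452, 657),
  (142, 145, 4445, 507, 4472, 357), (142, 147, 4445, 507, 4456, 557),
  (143, 146, 4480, 507, 4467, 457), (143, 148, 4480, 507, 4452, 657),
  (132, 150, 4500, 7, 4505, 507), (150, 149, 4505, 507, 4561, 1028),
  (132, 151, 4500, 7, 4540, 507), (151, 149, 4540, 507, 4561, 1028),
  (132, 152, 4500, 7, 4555, 507), (152, 149, 4555, 507, 4561, 1028),
  (153, 154, 4514, 357, 4521, 457), (154, 155, 4521, 457, 4522, 557),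
  (155, 156, 4522, 557, 4530, 657), (150, 153, 4505, 507, 4514, 357),
  (150, 155, 4505, 507, 4522, 557), (151, 154, 4540, 507, 4521, 457),
  (151, 156, 4540, 507, 4530, 657), (132, 158, 4500, 7, 4565, 507),
  (158, 157, 4565, 507, 4680, 1008), (132, 159, 4500, 7, 4600, 507),
  (159, 157, 4600, 507, 4680, 1008), (132, 160, 4500, 7, 4615, 507),
  (160, 157, 4615, 507, 4680, 1008), (161, 162, 4556, 357, 4575, 457),
  (162, 163, 4575, 457, 4588, 557), (163, 164, 4588, 557, 4608, 657),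
  (158, 161, 4565, 507, 4556, 357), (158, 163, 4565, 507, 4588, 557),
  (159, 162, 4600, 507, 4575, 457), (159, 164, 4600, 507, 4608, 657),
  (133, 141, 4320, 1007, 4439, 1027), (141, 149, 4439, 1027, 4561, 1028),
  (149, 157, 4561, 1028, 4680, 1008), (0, 33, 500, 0, 1500, 600), (33, 66, 1500, 600, 2500, 803),
  (66, 99, 2500, 803, 3500, 611), (99, 132, 3500, 611, 4500, 7), (132, 0, 4500, 7, 500, 0)]

/-- first coordinates -/
def XS : List ℕ := [
  500, 320, 385, 420, 435, 430, 413, 390, 374, 439, 445, 480, 495, 472, 467, 456, 452, 561, 505,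
  540, 555, 514, 521, 522, 530, 680, 565, 600, 615, 556, 575, 588, 608, 1500, 1320, 1385, 1420,
  1435, 1430, 1413, 1390, 1374, 1439, 1445, 1480, 1495, 1472, 1467, 1456, 1452, 1561, 1505, 1540,
  1555, 1514, 1521, 1522, 1530, 1680, 1565, 1600, 1615, 1556, 1575, 1588, 1608, 2500, 2320, 2385,
  2420, 2435, 2430, 2413, 2390, 2374, 2439, 2445, 2480, 2495, 2472, 2467, 2456, 2452, 2561, 2505,
  2540, 2555, 2514, 2521, 2522, 2530, 2680, 2565, 2600, 2615, 2556, 2575, 2588, 2608, 3500, 3320,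
  3385, 3420, 3435, 3430, 3413, 3390, 3374, 3439, 3445, 3480, 3495, 3472, 3467, 3456, 3452, 3561,
  3505, 3540, 3555, 3514, 3521, 3522, 3530, 3680, 3565, 3600, 3615, 3556, 3575, 3588, 3608, 4500,
  4320, 4385, 4420, 4435, 4430, 4413, 4390, 4374, 4439, 4445, 4480, 4495, 4472, 4467, 4456, 4452,
  4561, 4505, 4540, 4555, 4514, 4521, 4522, 4530, 4680, 4565, 4600, 4615, 4556, 4575, 4588, 4608]

/-- second coordinates -/
def YS : List ℕ := [
  0, 1000, 500, 500, 500, 350, 450, 550, 650, 1020, 500, 500, 500, 350, 450, 550, 650, 1021, 500,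
  500, 500, 350, 450, 550, 650, 1001, 500, 500, 500, 350, 450, 550, 650, 600, 1600, 1100, 1100,
  1100, 950, 1050, 1150, 1250, 1620, 1100, 1100, 1100, 950, 1050, 1150, 1250, 1621, 1100, 1100,
  1100, 950, 1050, 1150, 1250, 1601, 1100, 1100, 1100, 950, 1050, 1150, 1250, 803, 1803, 1303,
  1303, 1303, 1153, 1253, 1353, 1453, 1823, 1303, 1303, 1303, 1153, 1253, 1353, 1453, 1824, 1303,
  1303, 1303, 1153, 1253, 1353, 1453, 1804, 1303, 1303, 1303, 1153, 1253, 1353, 1453, 611, 1611,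
  1111, 1111, 1111, 961, 1061, 1161, 1261, 1631, 1111, 1111, 1111, 961, 1061, 1161, 1261, 1632,
  1111, 1111, 1111, 961, 1061, 1161, 1261, 1612, 1111, 1111, 1111, 961, 1061, 1161, 1261, 7,
  1007, 507, 507, 507, 357, 457, 557, 657, 1027, 507, 507, 507, 357, 457, 557, 657, 1028, 507,
  507, 507, 357, 457, 557, 657, 1008, 507, 507, 507, 357, 457, 557, 657]

/-- a proper colouring with three colours -/
def CS : List ℕ := [
  0, 0, 1, 1, 1, 0, 2, 0, 2, 2, 1, 1, 1, 0, 2, 0, 2, 0, 1, 1, 1, 0, 2, 0, 2, 2, 1, 1, 1, 0, 2, 0,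
  2, 1, 1, 2, 2, 2, 1, 0, 1, 0, 0, 2, 2, 2, 1, 0, 1, 0, 1, 2, 2, 2, 1, 0, 1, 0, 0, 2, 2, 2, 1, 0,
  1, 0, 0, 0, 1, 1, 1, 0, 2, 0, 2, 2, 1, 1, 1, 0, 2, 0, 2, 0, 1, 1, 1, 0, 2, 0, 2, 2, 1, 1, 1, 0,
  2, 0, 2, 1, 1, 2, 2, 2, 1, 0, 1, 0, 0, 2, 2, 2, 1, 0, 1, 0, 1, 2, 2, 2, 1, 0, 1, 0, 0, 2, 2, 2,
  1, 0, 1, 0, 2, 2, 0, 0, 0, 2, 1, 2, 1, 1, 0, 0, 0, 2, 1, 2, 1, 2, 0, 0, 0, 2, 1, 2, 1, 1, 0, 0,
  0, 2, 1, 2, 1]

def X (n : ℕ) : ℕ := XS.getD n 0
def Y (n : ℕ) : ℕ := YS.getD n 0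
def C (n : ℕ) : ℕ := CS.getD n 0

theorem nb_true {a b : ℕ} : (Nat.beq a b = true) ↔ a = b := by rw [Nat.beq_eq]

theorem nb_false {a b : ℕ} : (Nat.beq a b = false) ↔ a ≠ b := by
  rw [← Bool.not_eq_true, nb_true]

def adjB (m n : ℕ) : Bool :=
  EC.any fun e => (Nat.beq e.1 m && Nat.beq e.2.1 n) || (Nat.beq e.1 n && Nat.beq e.2.1 m)

theorem adjB_comm (m n : ℕ) : adjB m n = adjB n m := by
  unfold adjB
  congr 1
  funext e
  exact Bool.or_comm _ _

theorem noloop : (EC.all fun e => !(Nat.beq e.1 e.2.1)) = true := by decide +kernel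

theorem adjB_self (n : ℕ) : adjB n n = false := by
  rw [Bool.eq_false_iff]
  intro h
  unfold adjB at h
  rw [List.any_eq_true] at h
  obtain ⟨e, he, h⟩ := h
  have h1 := List.all_eq_true.1 noloop e he
  simp only [Bool.or_eq_true, Bool.and_eq_true, nb_true] at h
  have : e.1 = e.2.1 := by omega
  rw [Bool.not_eq_true', nb_false] at h1
  exact h1 this

/-! ### The drawing -/

def orR (a b c : ℝ × ℝ) : ℝ := (b.1 - a.1) * (c.2 - a.2) - (b.2 - a.2) * (c.1 - a.1)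

theorem orR_seg {a b q : ℝ × ℝ} (h : q ∈ segment ℝ a b) : orR a b q = 0 := by
  obtain ⟨s, t, hs, ht, hst, rfl⟩ := h
  have : s = 1 - t := by linarith
  subst this
  simp only [orR, Prod.fst_add, Prod.snd_add, Prod.smul_fst, Prod.smul_snd, smul_eq_mul]
  ring

theorem geo {a b c d q : ℝ × ℝ} (h1 : q ∈ segment ℝ a b) (h2 : q ∈ segment ℝ c d) :
    ∃ s t : ℝ, 0 ≤ s ∧ 0 ≤ t ∧ s + t = 1 ∧ s * orR a b c + t * orR a b d = 0 ∧
      q = s • c + t • d := by
  obtain ⟨s, t, hs, ht, hst, rfl⟩ := h2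
  refine ⟨s, t, hs, ht, hst, ?_, rfl⟩
  have h := orR_seg h1
  have : s = 1 - t := by linarith
  subst this
  rw [← h]
  simp only [orR, Prod.fst_add, Prod.snd_add, Prod.smul_fst, Prod.smul_snd, smul_eq_mul]
  ring

theorem geo_pos {a b c d q : ℝ × ℝ} (h1 : q ∈ segment ℝ a b) (h2 : q ∈ segment ℝ c d)
    (hc : 0 < orR a b c) (hd : 0 < orR a b d) : False := by
  obtain ⟨s, t, hs, ht, hst, h, -⟩ := geo h1 h2
  rcases hs.lt_or_eq with hs' | hs'
  · nlinarith [mul_pos hs' hc, mul_nonneg ht hd.le]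
  · have : t = 1 := by linarith
    rw [← hs', this] at h
    linarith

theorem geo_neg {a b c d q : ℝ × ℝ} (h1 : q ∈ segment ℝ a b) (h2 : q ∈ segment ℝ c d)
    (hc : orR a b c < 0) (hd : orR a b d < 0) : False := by
  obtain ⟨s, t, hs, ht, hst, h, -⟩ := geo h1 h2
  rcases hs.lt_or_eq with hs' | hs'
  · nlinarith [mul_pos hs' (neg_pos.2 hc), mul_nonneg ht (neg_pos.2 hd).le]
  · have : t = 1 := by linarith
    rw [← hs', this] at h
    linarith

theorem geo_left {a b c d q : ℝ × ℝ} (h1 : q ∈ segment ℝ a b) (h2 : q ∈ segment ℝ c d)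
    (hc : orR a b c = 0) (hd : orR a b d ≠ 0) : q = c := by
  obtain ⟨s, t, hs, ht, hst, h, rfl⟩ := geo h1 h2
  rw [hc, mul_zero, zero_add] at h
  have ht0 : t = 0 := by
    rcases mul_eq_zero.1 h with h | h
    · exact h
    · exact absurd h hd
  have hs1 : s = 1 := by linarith
  simp [ht0, hs1]

theorem geo_right {a b c d q : ℝ × ℝ} (h1 : q ∈ segment ℝ a b) (h2 : q ∈ segment ℝ c d)
    (hc : orR a b c ≠ 0) (hd : orR a b d = 0) : q = d := by
  obtain ⟨s, t, hs, ht, hst, h, rfl⟩ := geo h1 h2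
  rw [hd, mul_zero, add_zero] at h
  have hs0 : s = 0 := by
    rcases mul_eq_zero.1 h with h | h
    · exact h
    · exact absurd h hc
  have ht1 : t = 1 := by linarith
  simp [ht1, hs0]

/-- positive and negative part of the orientation determinant -/
def PP (ax ay bx bY cx cy : ℕ) : ℕ := ax * bY + bx * cy + cx * ay
def NN (ax ay bx bY cx cy : ℕ) : ℕ := ax * cy + bx * ay + cx * bY

theorem orR_cast (ax ay bx bY cx cy : ℕ) :
    orR ((ax : ℝ), (ay : ℝ)) ((bx : ℝ), (bY : ℝ)) ((cx : ℝ), (cy : ℝ)) =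
      (PP ax ay bx bY cx cy : ℝ) - (NN ax ay bx bY cx cy : ℝ) := by
  simp only [orR, PP, NN]
  push_cast
  ring

def TT (a b c d ax ay bx bY cx cy dx dy : ℕ) : Bool :=
  let p1 := PP ax ay bx bY cx cy
  let n1 := NN ax ay bx bY cx cy
  let p2 := PP ax ay bx bY dx dy
  let n2 := NN ax ay bx bY dx dy
  (Nat.blt n1 p1 && Nat.blt n2 p2) || ((Nat.blt p1 n1 && Nat.blt p2 n2) ||
    ((Nat.beq p1 n1 && (!(Nat.beq p2 n2) && (Nat.beq c a || Nat.beq c b))) ||
      (Nat.beq p2 n2 && (!(Nat.beq p1 n1) && (Nat.beq d a || Nat.beq d b)))))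

theorem TT_sound {a b c d ax ay bx bY cx cy dx dy : ℕ}
    (h : TT a b c d ax ay bx bY cx cy dx dy = true) (q : ℝ × ℝ)
    (h1 : q ∈ segment ℝ ((ax : ℝ), (ay : ℝ)) ((bx : ℝ), (bY : ℝ)))
    (h2 : q ∈ segment ℝ ((cx : ℝ), (cy : ℝ)) ((dx : ℝ), (dy : ℝ))) :
    ((c = a ∨ c = b) ∧ q = ((cx : ℝ), (cy : ℝ))) ∨
      ((d = a ∨ d = b) ∧ q = ((dx : ℝ), (dy : ℝ))) := by
  have o1 := orR_cast ax ay bx bY cx cy
  have o2 := orR_cast ax ay bx bY dx dy
  unfold TT at h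
  simp only [Bool.or_eq_true, Bool.and_eq_true, Bool.not_eq_true', nb_true,
    Nat.blt_eq, nb_false] at h
  rcases h with ⟨h3, h4⟩ | ⟨h3, h4⟩ | ⟨h3, h4, h5⟩ | ⟨h3, h4, h5⟩
  · exfalso
    refine geo_pos h1 h2 ?_ ?_
    · rw [o1]; exact sub_pos.2 (by exact_mod_cast h3)
    · rw [o2]; exact sub_pos.2 (by exact_mod_cast h4)
  · exfalso
    refine geo_neg h1 h2 ?_ ?_
    · rw [o1]; exact sub_neg.2 (by exact_mod_cast h3)
    · rw [o2]; exact sub_neg.2 (by exact_mod_cast h4)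
  · left
    refine ⟨h5, geo_left h1 h2 ?_ ?_⟩
    · rw [o1, h3, sub_self]
    · rw [o2]; intro h6; exact h4 (by exact_mod_cast sub_eq_zero.1 h6)
  · right
    refine ⟨h5, geo_right h1 h2 ?_ ?_⟩
    · rw [o1]; intro h6; exact h4 (by exact_mod_cast sub_eq_zero.1 h6)
    · rw [o2, h3, sub_self]

def okPair (e f : ℕ × ℕ × ℕ × ℕ × ℕ × ℕ) : Bool :=
  (Nat.beq e.1 f.1 && Nat.beq e.2.1 f.2.1) ||
  (TT e.1 e.2.1 f.1 f.2.1 e.2.2.1 e.2.2.2.1 e.2.2.2.2.1 e.2.2.2.2.2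
      f.2.2.1 f.2.2.2.1 f.2.2.2.2.1 f.2.2.2.2.2 ||
    TT f.1 f.2.1 e.1 e.2.1 f.2.2.1 f.2.2.2.1 f.2.2.2.2.1 f.2.2.2.2.2
      e.2.2.1 e.2.2.2.1 e.2.2.2.2.1 e.2.2.2.2.2)

theorem allPairs : (EC.all fun e => EC.all fun f => okPair e f) = true := by
  decide +kernel

theorem coords : (EC.all fun e => Nat.beq (X e.1) e.2.2.1 && (Nat.beq (Y e.1) e.2.2.2.1 &&
    (Nat.beq (X e.2.1) e.2.2.2.2.1 && Nat.beq (Y e.2.1) e.2.2.2.2.2))) = true := by
  decide +kernel


theorem edges_aux {e f : ℕ × ℕ × ℕ × ℕ × ℕ × ℕ} (he : e ∈ EC) (hf : f ∈ EC)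
    (hne : ¬ (e.1 = f.1 ∧ e.2.1 = f.2.1)) (q : ℝ × ℝ)
    (h1 : q ∈ segment ℝ ((X e.1 : ℝ), (Y e.1 : ℝ)) ((X e.2.1 : ℝ), (Y e.2.1 : ℝ)))
    (h2 : q ∈ segment ℝ ((X f.1 : ℝ), (Y f.1 : ℝ)) ((X f.2.1 : ℝ), (Y f.2.1 : ℝ))) :
    ∃ v : ℕ, (v = e.1 ∨ v = e.2.1) ∧ (v = f.1 ∨ v = f.2.1) ∧ q = ((X v : ℝ), (Y v : ℝ)) := by
  have hp := List.all_eq_true.1 (List.all_eq_true.1 allPairs e he) f hf
  have ce := List.all_eq_true.1 coords e he
  have cf := List.all_eq_true.1 coords f hf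
  simp only [Bool.and_eq_true, nb_true] at ce cf
  obtain ⟨ce1, ce2, ce3, ce4⟩ := ce
  obtain ⟨cf1, cf2, cf3, cf4⟩ := cf
  unfold okPair at hp
  rw [← ce1, ← ce2, ← ce3, ← ce4, ← cf1, ← cf2, ← cf3, ← cf4] at hp
  rw [Bool.or_eq_true, Bool.or_eq_true, Bool.and_eq_true, nb_true, nb_true] at hp
  rcases hp with hp | hp | hp
  · exact absurd hp hne
  · rcases TT_sound hp q h1 h2 with ⟨h3, h4⟩ | ⟨h3, h4⟩
    · exact ⟨f.1, h3, Or.inl rfl, h4⟩
    · exact ⟨f.2.1, h3, Or.inr rfl, h4⟩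
  · rcases TT_sound hp q h2 h1 with ⟨h3, h4⟩ | ⟨h3, h4⟩
    · exact ⟨e.1, Or.inl rfl, h3, h4⟩
    · exact ⟨e.2.1, Or.inr rfl, h3, h4⟩

theorem adjB_iff (m n : ℕ) : adjB m n = true ↔
    ∃ e ∈ EC, (e.1 = m ∧ e.2.1 = n) ∨ (e.1 = n ∧ e.2.1 = m) := by
  unfold adjB
  rw [List.any_eq_true]
  simp only [Bool.or_eq_true, Bool.and_eq_true, nb_true]

theorem edges_nat {a b c d : ℕ} (hab : adjB a b = true) (hcd : adjB c d = true)
    (hne1 : ¬ (a = c ∧ b = d)) (hne2 : ¬ (a = d ∧ b = c)) (q : ℝ × ℝ)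
    (h1 : q ∈ segment ℝ ((X a : ℝ), (Y a : ℝ)) ((X b : ℝ), (Y b : ℝ)))
    (h2 : q ∈ segment ℝ ((X c : ℝ), (Y c : ℝ)) ((X d : ℝ), (Y d : ℝ))) :
    ∃ v : ℕ, (v = a ∨ v = b) ∧ (v = c ∨ v = d) ∧ q = ((X v : ℝ), (Y v : ℝ)) := by
  obtain ⟨e, he, h⟩ := (adjB_iff a b).1 hab
  obtain ⟨f, hf, h'⟩ := (adjB_iff c d).1 hcd
  rcases h with ⟨rfl, rfl⟩ | ⟨rfl, rfl⟩ <;> rcases h' with ⟨rfl, rfl⟩ | ⟨rfl, rfl⟩
  · exact edges_aux he hf hne1 q h1 h2
  · rw [segment_symm] at h2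
    obtain ⟨v, h3, h4, h5⟩ := edges_aux he hf hne2 q h1 h2
    exact ⟨v, h3, h4.symm, h5⟩
  · rw [segment_symm] at h1
    obtain ⟨v, h3, h4, h5⟩ := edges_aux he hf (fun h => hne2 ⟨h.2, h.1⟩) q h1 h2
    exact ⟨v, h3.symm, h4, h5⟩
  · rw [segment_symm] at h1 h2
    obtain ⟨v, h3, h4, h5⟩ := edges_aux he hf (fun h => hne1 ⟨h.2, h.1⟩) q h1 h2
    exact ⟨v, h3.symm, h4.symm, h5⟩

theorem injB : ((List.range 165).all fun a => (List.range 165).all fun b =>
    Nat.beq a b || !(Nat.beq (X a) (X b) && Nat.beq (Y a) (Y b))) = true := by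
  decide +kernel

theorem nbrB : ((List.range 165).all fun a => EC.any fun e => Nat.beq e.1 a || Nat.beq e.2.1 a) = true := by
  decide +kernel

/-! ### Triangles -/

/-- labels giving a homomorphism to the Clebsch graph -/
def LS : List ℕ := [
  0, 3, 1, 2, 1, 5, 10, 5, 10, 12, 4, 8, 4, 5, 10, 5, 10, 3, 1, 2, 1, 5, 10, 5, 10, 12, 4, 8, 4,
  5, 10, 5, 10, 1, 2, 0, 3, 0, 4, 11, 4, 11, 13, 5, 9, 5, 4, 11, 4, 11, 2, 0, 3, 0, 4, 11, 4, 11,
  13, 5, 9, 5, 4, 11, 4, 11, 3, 0, 2, 1, 2, 6, 9, 6, 9, 15, 7, 11, 7, 6, 9, 6, 9, 0, 2, 1, 2, 6,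
  9, 6, 9, 15, 7, 11, 7, 6, 9, 6, 9, 7, 4, 6, 5, 6, 2, 13, 2, 13, 11, 3, 15, 3, 2, 13, 2, 13, 4,
  6, 5, 6, 2, 13, 2, 13, 11, 3, 15, 3, 2, 13, 2, 13, 15, 12, 14, 13, 14, 10, 5, 10, 5, 3, 11, 7,
  11, 10, 5, 10, 5, 12, 14, 13, 14, 10, 5, 10, 5, 3, 11, 7, 11, 10, 5, 10, 5]

def L (n : ℕ) : ℕ := LS.getD n 0

def SS : List ℕ := [1, 2, 4, 8, 15]

theorem labB : (EC.all fun e => SS.any fun s => Nat.beq (Nat.xor (L e.1) (L e.2.1)) s) = true := by
  decide +kernel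

theorem L_mem {a b : ℕ} (h : adjB a b = true) : (L a ^^^ L b) ∈ SS := by
  obtain ⟨e, he, h⟩ := (adjB_iff a b).1 h
  have h2 := List.all_eq_true.1 labB e he
  rw [List.any_eq_true] at h2
  obtain ⟨s, hs, h2⟩ := h2
  rw [nb_true] at h2
  have h3 : L e.1 ^^^ L e.2.1 = s := h2
  rcases h with ⟨rfl, rfl⟩ | ⟨rfl, rfl⟩
  · rw [h3]; exact hs
  · rw [Nat.xor_comm, h3]; exact hs

theorem SS_xor : (SS.all fun s => SS.all fun t => SS.all fun r =>
    !(Nat.beq (Nat.xor s t) r)) = true := by decide +kernel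

theorem no_triangle {a b c : ℕ} (hab : adjB a b = true) (hac : adjB a c = true) :
    adjB b c = false := by
  rw [← Bool.not_eq_true]
  intro hbc
  have h1 := L_mem hab
  have h2 := L_mem hac
  have h3 := L_mem hbc
  have h4 : L b ^^^ L c = (L a ^^^ L b) ^^^ (L a ^^^ L c) := by
    rw [Nat.xor_comm (L a) (L b), Nat.xor_assoc, ← Nat.xor_assoc (L a) (L a) (L c),
      Nat.xor_self, Nat.zero_xor]
  rw [h4] at h3
  have h5 := List.all_eq_true.1 (List.all_eq_true.1 (List.all_eq_true.1 SS_xor _ h1) _ h2) _ h3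
  rw [Bool.not_eq_true', nb_false] at h5
  exact h5 rfl

theorem colB : (EC.all fun e => !(Nat.beq (C e.1) (C e.2.1)) ) = true := by decide +kernel

theorem colLt : ((List.range 165).all fun n => Nat.blt (C n) 3) = true := by decide +kernel

theorem C_ne {a b : ℕ} (h : adjB a b = true) : C a ≠ C b := by
  obtain ⟨e, he, h⟩ := (adjB_iff a b).1 h
  have h2 := List.all_eq_true.1 colB e he
  rw [Bool.not_eq_true', nb_false] at h2
  rcases h with ⟨rfl, rfl⟩ | ⟨rfl, rfl⟩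
  · exact h2
  · exact h2.symm


/-! ### Checks for the lower bound -/

theorem ltB : (EC.all fun e => Nat.blt e.1 165 && Nat.blt e.2.1 165) = true := by decide +kernel

theorem adjB_lt {a b : ℕ} (h : adjB a b = true) : a < 165 ∧ b < 165 := by
  obtain ⟨e, he, h⟩ := (adjB_iff a b).1 h
  have h2 := List.all_eq_true.1 ltB e he
  rw [Bool.and_eq_true, Nat.blt_eq, Nat.blt_eq] at h2
  rcases h with ⟨rfl, rfl⟩ | ⟨rfl, rfl⟩
  · exact h2
  · exact h2.symm

/-- adjacencies and non-adjacencies in one block -/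
def blockB (x y w1 w2 w3 z1 z2 z3 z4 : ℕ) : Bool :=
  (adjB w1 y && (adjB w2 y && (adjB y w3 && (adjB z1 w1 && (adjB z3 w1 && (adjB z2 w2 &&
  (adjB z4 w2 && (adjB z1 z2 && (adjB z2 z3 && (adjB z3 z4 && (adjB x w1 && (adjB x w2 &&
  (adjB x w3)))))))))))))
  && ((!adjB z1 y) && ((!adjB z2 y) && ((!adjB z3 y) && ((!adjB z4 y) &&
  ((!adjB z1 w3) && ((!adjB z2 w3) && ((!adjB z3 w3) && ((!adjB z4 w3) &&
  ((!adjB w1 w3) && ((!adjB w2 w3) && ((!adjB z1 z3) && ((!adjB z1 z4) &&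
  (!adjB z2 z4)))))))))))))

def blockIJ (i j : ℕ) : Bool :=
  blockB (33 * i) (33 * i + 8 * j + 1) (33 * i + 8 * j + 2) (33 * i + 8 * j + 3)
    (33 * i + 8 * j + 4) (33 * i + 8 * j + 5) (33 * i + 8 * j + 6) (33 * i + 8 * j + 7)
    (33 * i + 8 * j + 8)

theorem blockAll : ((List.range 5).all fun i => (List.range 4).all fun j => blockIJ i j) = true := by
  decide +kernel

/-- the path `y_0 y_1 y_2 y_3` -/
def yB (i : ℕ) : Bool :=
  (adjB (33 * i + 1) (33 * i + 9) && (adjB (33 * i + 9) (33 * i + 17) &&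
    adjB (33 * i + 17) (33 * i + 25))) &&
  ((!adjB (33 * i + 1) (33 * i + 17)) && ((!adjB (33 * i + 1) (33 * i + 25)) &&
    (!adjB (33 * i + 9) (33 * i + 25))))

theorem yAll : ((List.range 5).all fun i => yB i) = true := by decide +kernel

def WL : List ℕ := [2, 3, 4, 10, 11, 12, 18, 19, 20, 26, 27, 28]

def nxt (i : ℕ) : ℕ := (i + 1) % 5

theorem wAll : ((List.range 5).all fun i => WL.all fun r => adjB (33 * i) (33 * i + r)) = true := by
  decide +kernel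

theorem cycAll : ((List.range 5).all fun i => adjB (33 * i) (33 * nxt i) && (WL.all fun r =>
    ((!adjB (33 * i + r) (33 * nxt i)) && (!adjB (33 * i) (33 * nxt i + r))) && (WL.all fun t =>
      !adjB (33 * i + r) (33 * nxt i + t)))) = true := by
  decide +kernel

/-- There is no two-valued function on the vertices without a constant induced path on four
vertices. -/
theorem core (g : ℕ → ℕ) (hg : ∀ n, g n < 2)
    (hP : ∀ a b c d : ℕ, adjB a b = true → adjB b c = true → adjB c d = true →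
      adjB a c = false → adjB a d = false → adjB b d = false →
      ¬ (g a = g b ∧ g b = g c ∧ g c = g d)) : False := by
  have block : ∀ x y w1 w2 w3 z1 z2 z3 z4 : ℕ, blockB x y w1 w2 w3 z1 z2 z3 z4 = true →
      g w1 ≠ g x → g w2 ≠ g x → g w3 ≠ g x → g y = g x := by
    intro x y w1 w2 w3 z1 z2 z3 z4 hb h1 h2 h3
    unfold blockB at hb
    simp only [Bool.and_eq_true, Bool.not_eq_true'] at hb
    obtain ⟨⟨a1, a2, a3, a4, a5, a6, a7, a8, a9, a10, -, -, -⟩,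
      n1, n2, n3, n4, n5, n6, n7, n8, n9, n10, n11, n12, n13⟩ := hb
    have gx := hg x
    have gy := hg y
    have gw1 := hg w1
    have gw2 := hg w2
    have gw3 := hg w3
    have gz1 := hg z1
    have gz2 := hg z2
    have gz3 := hg z3
    have gz4 := hg z4
    by_contra hy
    have hz1 : g z1 = g x := by
      by_contra hz
      exact hP z1 w1 y w3 a4 a1 a3 n1 n5 n9 ⟨by omega, by omega, by omega⟩
    have hz2 : g z2 = g x := by
      by_contra hz
      exact hP z2 w2 y w3 a6 a2 a3 n2 n6 n10 ⟨by omega, by omega, by omega⟩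
    have hz3 : g z3 = g x := by
      by_contra hz
      exact hP z3 w1 y w3 a5 a1 a3 n3 n7 n9 ⟨by omega, by omega, by omega⟩
    have hz4 : g z4 = g x := by
      by_contra hz
      exact hP z4 w2 y w3 a7 a2 a3 n4 n8 n10 ⟨by omega, by omega, by omega⟩
    exact hP z1 z2 z3 z4 a8 a9 a10 n11 n12 n13 ⟨by omega, by omega, by omega⟩
  have sat : ∀ i < 5, ∃ r ∈ WL, g (33 * i + r) = g (33 * i) := by
    intro i hi
    by_contra hcon
    push Not at hcon
    have hb : ∀ j < 4, blockIJ i j = true := fun j hj =>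
      List.all_eq_true.1 (List.all_eq_true.1 blockAll i (List.mem_range.2 hi)) j
        (List.mem_range.2 hj)
    have hy := List.all_eq_true.1 yAll i (List.mem_range.2 hi)
    unfold yB at hy
    simp only [Bool.and_eq_true, Bool.not_eq_true'] at hy
    obtain ⟨⟨y1, y2, y3⟩, y4, y5, y6⟩ := hy
    have b0 := block _ _ _ _ _ _ _ _ _ (hb 0 (by norm_num)) (hcon 2 (by decide))
      (hcon 3 (by decide)) (hcon 4 (by decide))
    have b1 := block _ _ _ _ _ _ _ _ _ (hb 1 (by norm_num)) (hcon 10 (by decide))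
      (hcon 11 (by decide)) (hcon 12 (by decide))
    have b2 := block _ _ _ _ _ _ _ _ _ (hb 2 (by norm_num)) (hcon 18 (by decide))
      (hcon 19 (by decide)) (hcon 20 (by decide))
    have b3 := block _ _ _ _ _ _ _ _ _ (hb 3 (by norm_num)) (hcon 26 (by decide))
      (hcon 27 (by decide)) (hcon 28 (by decide))
    exact hP _ _ _ _ y1 y2 y3 y4 y5 y6 ⟨b0.trans b1.symm, b1.trans b2.symm, b2.trans b3.symm⟩
  have hc : ∃ i < 5, g (33 * i) = g (33 * nxt i) := by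
    by_contra hcon
    push Not at hcon
    have h0 := hcon 0 (by norm_num)
    have h1 := hcon 1 (by norm_num)
    have h2 := hcon 2 (by norm_num)
    have h3 := hcon 3 (by norm_num)
    have h4 := hcon 4 (by norm_num)
    norm_num [nxt] at h0 h1 h2 h3 h4
    have g0 := hg 0
    have g1 := hg 33
    have g2 := hg 66
    have g3 := hg 99
    have g4 := hg 132
    omega
  obtain ⟨i, hi, hgi⟩ := hc
  have hn : nxt i < 5 := Nat.mod_lt _ (by norm_num)
  obtain ⟨r, hr, hgr⟩ := sat i hi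
  obtain ⟨t, ht, hgt⟩ := sat (nxt i) hn
  have hw1 := List.all_eq_true.1 (List.all_eq_true.1 wAll i (List.mem_range.2 hi)) r hr
  have hw2 := List.all_eq_true.1 (List.all_eq_true.1 wAll (nxt i) (List.mem_range.2 hn)) t ht
  have hcy := List.all_eq_true.1 cycAll i (List.mem_range.2 hi)
  rw [Bool.and_eq_true] at hcy
  obtain ⟨c1, c2⟩ := hcy
  have c3 := List.all_eq_true.1 c2 r hr
  have c4 := List.all_eq_true.1 c2 t ht
  rw [Bool.and_eq_true, Bool.and_eq_true, Bool.not_eq_true', Bool.not_eq_true'] at c3 c4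
  have c5 := List.all_eq_true.1 c3.2 t ht
  rw [Bool.not_eq_true'] at c5
  refine hP (33 * i + r) (33 * i) (33 * nxt i) (33 * nxt i + t) ?_ c1 hw2 c3.1.1 c5 c4.1.2
    ⟨hgr, hgi, hgt.symm⟩
  rw [adjB_comm]
  exact hw1


end Pool.Agent.Run7.h801.CogData
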