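import Mathlib

/-!
# An integer relation with a controlled denominator

`exists_det`: if nonnegative integer rows `t v` satisfy `∑ c, t v c * d c ≤ 1` and
`2 * ∑ c, t v c * d c ∈ ℤ`, and the rows add up to a constant positive vector, then
`2 * D * ∑ c, d c` is an integer for some nonzero integer `D` with a bound on
`|D| * ∏_{c ≠ c0} d c`.
-/

open Finset BigOperators

namespace Run7.h801

/-- Bound of a sum over permutations by expansion along the columns in `J`. -/
theorem perm_sum_le {C : Type*} [Fintype C] [DecidableEq C] (a : C → C → ℝ) (J : Finset C) (b : ℝ)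
    (hb : 0 ≤ b) (ha : ∀ i j, 0 ≤ a i j) (hrow : ∀ i, ∑ j ∈ Jᶜ, a i j ≤ 1)
    (hcol : ∀ i, ∀ j ∈ J, a i j ≤ b) :
    ∑ σ : Equiv.Perm C, ∏ i, a i (σ i) ≤ (Fintype.card C * b) ^ J.card := by
  classical
  let B : (J → C) → C → C → ℝ := fun ρ i j =>
    if h : j ∈ J then (if ρ ⟨j, h⟩ = i then 1 else 0)
    else (if i ∈ Set.range ρ then 0 else a i j)
  have hB : ∀ ρ i j, 0 ≤ B ρ i j := by
    intro ρ i j
    simp only [B]
    split_ifs <;> simp [ha]
  let ρσ : Equiv.Perm C → (J → C) := fun σ j => σ.symm j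
  have hinj : ∀ σ, Function.Injective (ρσ σ) := by
    intro σ x y hxy
    exact Subtype.ext (σ.symm.injective hxy)
  have h1 : ∀ σ : Equiv.Perm C, ∏ i, a i (σ i) ≤ b ^ J.card * ∏ i, B (ρσ σ) i (σ i) := by
    intro σ
    have e1 : ∏ i, a i (σ i) = ∏ j, a (σ.symm j) j := by
      rw [← Equiv.prod_comp σ (fun j => a (σ.symm j) j)]
      simp
    have e2 : ∏ i, B (ρσ σ) i (σ i) = ∏ j, B (ρσ σ) (σ.symm j) j := by
      rw [← Equiv.prod_comp σ (fun j => B (ρσ σ) (σ.symm j) j)]
      simp
    rw [e1, e2, ← Finset.prod_mul_prod_compl J, ← Finset.prod_mul_prod_compl J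
      (fun j => B (ρσ σ) (σ.symm j) j)]
    have e3 : ∏ j ∈ J, B (ρσ σ) (σ.symm j) j = 1 := by
      refine Finset.prod_eq_one ?_
      intro j hj
      simp only [B, dif_pos hj, ρσ, if_true]
    have e4 : ∏ j ∈ Jᶜ, B (ρσ σ) (σ.symm j) j = ∏ j ∈ Jᶜ, a (σ.symm j) j := by
      refine Finset.prod_congr rfl ?_
      intro j hj
      have hj' : j ∉ J := Finset.mem_compl.mp hj
      have hr : σ.symm j ∉ Set.range (ρσ σ) := by
        rintro ⟨y, hy⟩
        have : (y : C) = j := σ.symm.injective hy
        exact hj' (this ▸ y.2)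
      simp only [B, dif_neg hj', if_neg hr]
    rw [e3, one_mul, e4]
    refine mul_le_mul_of_nonneg_right ?_ (Finset.prod_nonneg (fun j _ => ha _ _))
    calc ∏ j ∈ J, a (σ.symm j) j ≤ ∏ j ∈ J, b :=
          Finset.prod_le_prod (fun j _ => ha _ _) (fun j hj => hcol _ j hj)
      _ = b ^ J.card := by simp
  have h2 : ∀ σ : Equiv.Perm C, ∏ i, B (ρσ σ) i (σ i) ≤
      ∑ ρ ∈ (Finset.univ : Finset (J → C)).filter Function.Injective, ∏ i, B ρ i (σ i) := by
    intro σ
    exact Finset.single_le_sum (f := fun ρ => ∏ i, B ρ i (σ i))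
      (fun ρ _ => Finset.prod_nonneg (fun i _ => hB ρ i (σ i)))
      (Finset.mem_filter.mpr ⟨Finset.mem_univ _, hinj σ⟩)
  have h3 : ∀ ρ, ∑ σ : Equiv.Perm C, ∏ i, B ρ i (σ i) ≤ ∏ i, ∑ j, B ρ i j := by
    intro ρ
    rw [Finset.prod_univ_sum]
    rw [← Finset.sum_image (s := (univ : Finset (Equiv.Perm C)))
      (g := fun σ : Equiv.Perm C => (σ : C → C)) (f := fun x : C → C => ∏ i, B ρ i (x i))]
    · refine Finset.sum_le_sum_of_subset_of_nonneg ?_ ?_
      · intro x _
        simp
      · intro x _ _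
        exact Finset.prod_nonneg (fun i _ => hB ρ i (x i))
    · intro x _ y _ h
      exact DFunLike.coe_injective h
  have h4 : ∀ ρ : J → C, Function.Injective ρ → ∏ i, ∑ j, B ρ i j ≤ 1 := by
    intro ρ hρ
    refine Finset.prod_le_one (fun i _ => Finset.sum_nonneg (fun j _ => hB ρ i j)) ?_
    intro i _
    rw [← Finset.sum_add_sum_compl J]
    by_cases hi : i ∈ Set.range ρ
    · obtain ⟨y, rfl⟩ := hi
      have e1 : ∑ j ∈ Jᶜ, B ρ (ρ y) j = 0 := by
        refine Finset.sum_eq_zero ?_
        intro j hj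
        have hj' : j ∉ J := Finset.mem_compl.mp hj
        simp only [B, dif_neg hj', if_pos (Set.mem_range_self y)]
      have e2 : ∑ j ∈ J, B ρ (ρ y) j = 1 := by
        rw [Finset.sum_eq_single (y : C)]
        · simp only [B, dif_pos y.2, if_true, Subtype.coe_eta]
        · intro j hj hne
          simp only [B, dif_pos hj]
          rw [if_neg]
          intro h
          exact hne (congrArg Subtype.val (hρ h))
        · intro h
          exact absurd y.2 h
      rw [e1, e2]
      norm_num
    · have e1 : ∑ j ∈ J, B ρ i j = 0 := by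
        refine Finset.sum_eq_zero ?_
        intro j hj
        simp only [B, dif_pos hj]
        rw [if_neg]
        intro h
        exact hi ⟨_, h⟩
      have e2 : ∑ j ∈ Jᶜ, B ρ i j = ∑ j ∈ Jᶜ, a i j := by
        refine Finset.sum_congr rfl ?_
        intro j hj
        have hj' : j ∉ J := Finset.mem_compl.mp hj
        simp only [B, dif_neg hj', if_neg hi]
      rw [e1, e2, zero_add]
      exact hrow i
  calc ∑ σ : Equiv.Perm C, ∏ i, a i (σ i)
      ≤ ∑ σ : Equiv.Perm C, b ^ J.card *
        ∑ ρ ∈ (Finset.univ : Finset (J → C)).filter Function.Injective, ∏ i, B ρ i (σ i) :=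
        Finset.sum_le_sum (fun σ _ => (h1 σ).trans
          (mul_le_mul_of_nonneg_left (h2 σ) (pow_nonneg hb _)))
    _ = b ^ J.card * ∑ ρ ∈ (Finset.univ : Finset (J → C)).filter Function.Injective,
        ∑ σ : Equiv.Perm C, ∏ i, B ρ i (σ i) := by
        rw [← Finset.mul_sum, Finset.sum_comm]
    _ ≤ b ^ J.card * ∑ ρ ∈ (Finset.univ : Finset (J → C)).filter Function.Injective, 1 := by
        refine mul_le_mul_of_nonneg_left (Finset.sum_le_sum ?_) (pow_nonneg hb _)
        intro ρ hρ
        exact (h3 ρ).trans (h4 ρ (Finset.mem_filter.mp hρ).2)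
    _ ≤ b ^ J.card * (Fintype.card C : ℝ) ^ J.card := by
        refine mul_le_mul_of_nonneg_left ?_ (pow_nonneg hb _)
        rw [Finset.sum_const, nsmul_eq_mul, mul_one]
        have e1 := Finset.card_filter_le (Finset.univ : Finset (J → C)) Function.Injective
        rw [Finset.card_univ, Fintype.card_fun, Fintype.card_coe] at e1
        exact_mod_cast e1
    _ = (Fintype.card C * b) ^ J.card := by rw [mul_pow]; ring

/-- Determinant bound for a nonnegative integer matrix with weighted row sums at most one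
away from the columns in `J`. -/
theorem det_bound {C : Type*} [Fintype C] [DecidableEq C] (A : Matrix C C ℤ) (d : C → ℝ)
    (J : Finset C) (b : ℝ) (hb0 : 0 ≤ b) (hA : ∀ i j, 0 ≤ A i j) (hd : ∀ c, 0 ≤ d c)
    (hrow : ∀ i, ∑ j ∈ Jᶜ, (A i j : ℝ) * d j ≤ 1)
    (hcol : ∀ i, ∀ j ∈ J, (A i j : ℝ) ≤ b) :
    |(A.det : ℝ)| * ∏ c ∈ Jᶜ, d c ≤ (Fintype.card C * b) ^ J.card := by
  classical
  let δ : C → ℝ := fun j => if j ∈ J then 1 else d j
  have hδ : ∀ j, 0 ≤ δ j := by
    intro j
    simp only [δ]
    split_ifs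
    · exact zero_le_one
    · exact hd j
  have hprod : ∏ j, δ j = ∏ c ∈ Jᶜ, d c := by
    rw [← Finset.prod_mul_prod_compl J]
    have : ∏ j ∈ J, δ j = 1 := by
      refine Finset.prod_eq_one ?_
      intro j hj
      simp [δ, hj]
    rw [this, one_mul]
    refine Finset.prod_congr rfl ?_
    intro j hj
    simp [δ, Finset.mem_compl.mp hj]
  have hdet : |(A.det : ℝ)| ≤ ∑ σ : Equiv.Perm C, ∏ i, (A i (σ i) : ℝ) := by
    rw [← Matrix.det_transpose, Matrix.det_apply]
    push_cast
    refine (Finset.abs_sum_le_sum_abs _ _).trans ?_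
    refine Finset.sum_le_sum ?_
    intro σ _
    rw [Units.smul_def, zsmul_eq_mul]
    push_cast
    rw [abs_mul]
    have : |((Equiv.Perm.sign σ : ℤ) : ℝ)| = 1 := by
      rcases Int.units_eq_one_or (Equiv.Perm.sign σ) with h | h <;> simp [h]
    rw [this, one_mul, Finset.abs_prod]
    refine Finset.prod_le_prod (fun _ _ => abs_nonneg _) ?_
    intro i _
    rw [Matrix.transpose_apply]
    rw [abs_of_nonneg]
    exact_mod_cast hA _ _
  rw [← hprod]
  calc |(A.det : ℝ)| * ∏ j, δ j ≤ (∑ σ : Equiv.Perm C, ∏ i, (A i (σ i) : ℝ)) * ∏ j, δ j :=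
        mul_le_mul_of_nonneg_right hdet (Finset.prod_nonneg (fun j _ => hδ j))
    _ = ∑ σ : Equiv.Perm C, ∏ i, ((A i (σ i) : ℝ) * δ (σ i)) := by
        rw [Finset.sum_mul]
        refine Finset.sum_congr rfl ?_
        intro σ _
        rw [Finset.prod_mul_distrib, Equiv.prod_comp σ δ]
    _ ≤ (Fintype.card C * b) ^ J.card := by
        refine perm_sum_le (fun i j => (A i j : ℝ) * δ j) J b hb0 ?_ ?_ ?_
        · intro i j
          exact mul_nonneg (by exact_mod_cast hA i j) (hδ j)
        · intro i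
          refine le_trans (le_of_eq ?_) (hrow i)
          refine Finset.sum_congr rfl ?_
          intro j hj
          simp [δ, Finset.mem_compl.mp hj]
        · intro i j hj
          simpa [δ, hj] using hcol i j hj

theorem exists_det {C V : Type*} [Fintype C] [DecidableEq C] [Fintype V]
    (t : V → C → ℕ) (d : C → ℝ) (hd : ∀ c, 0 < d c) (hd1 : ∀ c, d c ≤ 1)
    (hrow : ∀ v, ∑ c, (t v c : ℝ) * d c ≤ 1)
    (hint : ∀ v, ∃ z : ℤ, 2 * ∑ c, (t v c : ℝ) * d c = z)
    (N : ℕ) (hN : 0 < N) (hcol : ∀ c, ∑ v, t v c = N) (J : Finset C) (b : ℝ) (hb1 : 1 ≤ b)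
    (hb : ∀ v, ∀ c ∈ J, (t v c : ℝ) ≤ b) :
    ∃ D : ℤ, D ≠ 0 ∧ (∃ z : ℤ, 2 * (D : ℝ) * ∑ c, d c = z) ∧
      |(D : ℝ)| * ∏ c ∈ Jᶜ, d c ≤ (Fintype.card C * b) ^ J.card := by
  classical
  -- the integer family
  let wz : V ⊕ C → C → ℤ := Sum.elim (fun v c => (t v c : ℤ)) (fun c' c => if c = c' then 1 else 0)
  let w : V ⊕ C → (C → ℚ) := fun i c => (wz i c : ℚ)
  obtain ⟨s, hs, -, hsspan, hsli⟩ := exists_linearIndepOn_extension (K := ℚ) (v := w)
    (s := ∅) (t := Set.range Sum.inl) (linearIndepOn_empty ℚ w) (Set.empty_subset _)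
  obtain ⟨r, -, hsr, hrspan, hrli⟩ := exists_linearIndepOn_extension (K := ℚ) (v := w)
    (s := s) (t := Set.univ) hsli (Set.subset_univ _)
  have htop : ⊤ ≤ Submodule.span ℚ (Set.range fun i : r => w i) := by
    intro x _
    have hx : x = ∑ c, x c • w (Sum.inr c) := by
      ext c
      simp [w, wz, Finset.sum_apply]
    rw [hx]
    refine Submodule.sum_mem _ ?_
    intro c _
    refine Submodule.smul_mem _ _ ?_
    have := hrspan ⟨Sum.inr c, Set.mem_univ _, rfl⟩
    rwa [Set.image_eq_range] at this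
  let Bs : Module.Basis r ℚ (C → ℚ) := Module.Basis.mk hrli htop
  have hBs : ∀ i : r, Bs i = w i := fun i => Module.Basis.mk_apply _ _ _
  -- index equivalence
  have : Fintype r := Fintype.ofFinite r
  have hcard : Fintype.card C = Fintype.card r := by
    have h1 := Module.finrank_eq_card_basis Bs
    have h2 : Module.finrank ℚ (C → ℚ) = Fintype.card C := by simp
    rw [← h1, h2]
  let e : C ≃ r := Fintype.equivOfCardEq hcard
  let A : Matrix C C ℤ := fun i j => wz (e i) j
  let AQ : Matrix C C ℚ := A.map (Int.cast : ℤ → ℚ)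
  -- coordinates of the constant vector
  let u : C → ℚ := fun i => Bs.repr (fun _ => (1 : ℚ)) (e i)
  have hone : (fun _ => (1 : ℚ)) = ∑ i, u i • w (e i) := by
    have h1 := Bs.sum_repr (fun _ => (1 : ℚ))
    rw [← h1, ← Equiv.sum_comp e]
    simp [u, hBs]
  have hone_mem : (fun _ : C => (1 : ℚ)) ∈ Submodule.span ℚ (w '' s) := by
    have h1 : (fun _ : C => (1 : ℚ)) = ((N : ℚ)⁻¹) • ∑ v, w (Sum.inl v) := by
      ext c
      have h2 := hcol c
      simp only [Pi.smul_apply, Finset.sum_apply, w, wz, Sum.elim_inl, Int.cast_natCast,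
        smul_eq_mul]
      rw [← Nat.cast_sum, h2]
      field_simp
    rw [h1]
    refine Submodule.smul_mem _ _ (Submodule.sum_mem _ ?_)
    intro v _
    exact hsspan ⟨Sum.inl v, ⟨v, rfl⟩, rfl⟩
  have hu0 : ∀ i : C, (e i : V ⊕ C) ∉ s → u i = 0 := by
    intro i hi
    have h1 : w '' s = Bs '' {x : r | (x : V ⊕ C) ∈ s} := by
      ext y
      constructor
      · rintro ⟨x, hx, rfl⟩
        exact ⟨⟨x, hsr hx⟩, hx, hBs _⟩
      · rintro ⟨x, hx, rfl⟩
        exact ⟨x, hx, (hBs _).symm⟩
    rw [h1, Module.Basis.mem_span_image] at hone_mem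
    by_contra hne
    have : e i ∈ (Bs.repr (fun _ => (1 : ℚ))).support := by
      rw [Finsupp.mem_support_iff]
      exact hne
    exact hi (hone_mem this)
  -- Cramer
  have hvec : Matrix.vecMul u AQ = fun _ => (1 : ℚ) := by
    rw [hone]
    ext c
    simp only [Matrix.vecMul, dotProduct, w, Finset.sum_apply, Pi.smul_apply, smul_eq_mul]
    rfl
  have hcramer : ∀ i, ∃ z : ℤ, (A.det : ℚ) * u i = z := by
    intro i
    have h1 : Matrix.vecMul (Matrix.vecMul u AQ) AQ.adjugate = AQ.det • u := by
      rw [Matrix.vecMul_vecMul, Matrix.mul_adjugate, Matrix.vecMul_smul, Matrix.vecMul_one]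
    rw [hvec] at h1
    have h2 : AQ.det = (A.det : ℚ) := by
      have := (Int.castRingHom ℚ).map_det A
      simpa [AQ, RingHom.mapMatrix_apply] using this.symm
    have h3 : AQ.adjugate = A.adjugate.map (Int.cast : ℤ → ℚ) := by
      have := (Int.castRingHom ℚ).map_adjugate A
      simpa [AQ, RingHom.mapMatrix_apply] using this.symm
    have h4 := congrFun h1 i
    rw [h3, h2] at h4
    refine ⟨∑ j, A.adjugate j i, ?_⟩
    rw [Pi.smul_apply, smul_eq_mul] at h4
    rw [← h4]
    simp [Matrix.vecMul, dotProduct]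
  have hdet0 : A.det ≠ 0 := by
    intro h0
    have hli : LinearIndependent ℚ AQ.row := by
      have h1 : AQ.row = (fun i : r => w i) ∘ e := by
        ext i j
        rfl
      rw [h1]
      exact LinearIndependent.comp hrli e e.injective
    rw [Matrix.linearIndependent_rows_iff_isUnit, Matrix.isUnit_iff_isUnit_det] at hli
    have h2 : AQ.det = (A.det : ℚ) := by
      have := (Int.castRingHom ℚ).map_det A
      simpa [AQ, RingHom.mapMatrix_apply] using this.symm
    rw [h2, h0] at hli
    simp at hli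
  refine ⟨A.det, hdet0, ?_, ?_⟩
  · -- integrality
    choose z hz using hcramer
    have hzi : ∀ i, ∃ y : ℤ, (z i : ℝ) * (2 * ∑ c, (A i c : ℝ) * d c) = y := by
      intro i
      by_cases hi : (e i : V ⊕ C) ∈ s
      · obtain ⟨v, hv⟩ := hs hi
        obtain ⟨y, hy⟩ := hint v
        refine ⟨z i * y, ?_⟩
        have : ∀ c, (A i c : ℝ) = t v c := by
          intro c
          simp [A, ← hv, wz]
        simp only [this]
        rw [hy]
        push_cast
        ring
      · have h0 := hu0 i hi
        have h1 := hz i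
        rw [h0, mul_zero] at h1
        have h2 : z i = 0 := by exact_mod_cast h1.symm
        exact ⟨0, by simp [h2]⟩
    choose y hy using hzi
    refine ⟨∑ i, y i, ?_⟩
    have hzr : ∀ i, (A.det : ℝ) * (u i : ℝ) = z i := by
      intro i
      rw [← Rat.cast_intCast A.det, ← Rat.cast_mul, hz i, Rat.cast_intCast]
    have honeR : ∀ c, (1 : ℝ) = ∑ i, (u i : ℝ) * (A i c : ℝ) := by
      intro c
      have h1 := congrFun hone c
      have h2 : ((1 : ℚ) : ℝ) = ((∑ i, u i * (A i c : ℚ) : ℚ) : ℝ) := by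
        rw [h1]
        simp [Finset.sum_apply, w, A]
      push_cast at h2
      exact h2
    calc 2 * (A.det : ℝ) * ∑ c, d c = 2 * (A.det : ℝ) * ∑ c, (∑ i, (u i : ℝ) * (A i c : ℝ)) * d c := by
          congr 1
          refine Finset.sum_congr rfl ?_
          intro c _
          rw [← honeR c, one_mul]
      _ = ∑ i, ((A.det : ℝ) * (u i : ℝ)) * (2 * ∑ c, (A i c : ℝ) * d c) := by
          simp only [Finset.sum_mul, Finset.mul_sum]
          rw [Finset.sum_comm]
          refine Finset.sum_congr rfl ?_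
          intro i _
          refine Finset.sum_congr rfl ?_
          intro c _
          ring
      _ = ∑ i, (y i : ℝ) := by
          refine Finset.sum_congr rfl ?_
          intro i _
          rw [hzr i, hy i]
      _ = ((∑ i, y i : ℤ) : ℝ) := by push_cast; rfl
  · -- bound
    refine det_bound A d J b (zero_le_one.trans hb1) ?_ (fun c => (hd c).le) ?_ ?_
    · intro i j
      simp only [A]
      rcases h : (e i : V ⊕ C) with v | c
      · simp [wz]
      · simp only [wz, Sum.elim_inr]
        split_ifs <;> simp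
    · intro i
      rcases h : (e i : V ⊕ C) with v | c
      · have h1 : ∀ j, (A i j : ℝ) = t v j := by
          intro j
          simp [A, h, wz]
        simp only [h1]
        refine le_trans ?_ (hrow v)
        refine Finset.sum_le_sum_of_subset_of_nonneg (Finset.subset_univ _) ?_
        intro j _ _
        exact mul_nonneg (Nat.cast_nonneg _) (hd j).le
      · have h1 : ∀ j, (A i j : ℝ) = if j = c then 1 else 0 := by
          intro j
          simp only [A, h, wz, Sum.elim_inr]
          split_ifs <;> simp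
        simp only [h1]
        calc ∑ j ∈ Jᶜ, (if j = c then (1:ℝ) else 0) * d j
            ≤ ∑ j, (if j = c then (1:ℝ) else 0) * d j := by
              refine Finset.sum_le_sum_of_subset_of_nonneg (Finset.subset_univ _) ?_
              intro j _ _
              refine mul_nonneg ?_ (hd j).le
              split_ifs <;> simp
          _ = d c := by simp
          _ ≤ 1 := hd1 c
    · intro i j hj
      rcases h : (e i : V ⊕ C) with v | c
      · have h1 : (A i j : ℝ) = t v j := by
          simp [A, h, wz]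
        rw [h1]
        exact hb v j hj
      · have h1 : (A i j : ℝ) = if j = c then 1 else 0 := by
          simp only [A, h, wz, Sum.elim_inr]
          split_ifs <;> simp
        rw [h1]
        split_ifs <;> linarith

end Run7.h801
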