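import Mathlib

/-!
# Densities of polyhedral cones in three-space and the Girard congruence

For a function `f` on `ℝ³`, `HasDens f x d` says that the averages of `f` over the balls
`B(x,r)` converge to `d` as `r → 0`.  For cells of an arrangement of planes through the
origin we prove the congruence `4 D(0) - 2 ∑_{x} D(x) ∈ ℤ` (a form of Girard's theorem).
-/

open MeasureTheory Metric Set Filter Topology
open scoped RealInnerProductSpace

namespace Run7.h801

/-- Euclidean three-space. -/
abbrev E3 := EuclideanSpace ℝ (Fin 3)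

/-- The indicator function of the open half-space with inner normal `n`. -/
noncomputable def hsI (n : E3) : E3 → ℝ := fun y => if 0 < ⟪n, y⟫ then 1 else 0

/-- Averages of `f` over small balls about `x` converge to `d`. -/
def HasDens (f : E3 → ℝ) (x : E3) (d : ℝ) : Prop :=
  Tendsto (fun r : ℝ => (∫ y in ball x r, f y) / (volume (ball x r)).toReal) (𝓝[>] 0) (𝓝 d)

theorem volume_ball_pos (x : E3) {r : ℝ} (hr : 0 < r) : 0 < (volume (ball x r)).toReal :=
  ENNReal.toReal_pos (measure_ball_pos volume x hr).ne' measure_ball_lt_top.ne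

theorem integrableOn_of_bdd {f : E3 → ℝ} (hf : Measurable f) {M : ℝ} (hM : ∀ y, |f y| ≤ M)
    {s : Set E3} (hs : volume s < ⊤) : IntegrableOn f s := by
  refine Measure.integrableOn_of_bounded hs.ne hf.aestronglyMeasurable (M := M) ?_
  exact Eventually.of_forall (fun y => by simpa [Real.norm_eq_abs] using hM y)

theorem HasDens.unique {f : E3 → ℝ} {x : E3} {d d' : ℝ} (h : HasDens f x d)
    (h' : HasDens f x d') : d = d' := tendsto_nhds_unique h h'

theorem HasDens.congr_ae {f g : E3 → ℝ} {x : E3} {d : ℝ} (h : HasDens f x d)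
    (hfg : f =ᵐ[volume] g) : HasDens g x d := by
  refine Tendsto.congr ?_ h
  intro r
  congr 1
  exact integral_congr_ae (ae_restrict_of_ae hfg)

theorem HasDens.add {f g : E3 → ℝ} {x : E3} {d d' : ℝ} (h : HasDens f x d) (h' : HasDens g x d')
    (hf : Measurable f) (hg : Measurable g) {M M' : ℝ} (hM : ∀ y, |f y| ≤ M)
    (hM' : ∀ y, |g y| ≤ M') : HasDens (fun y => f y + g y) x (d + d') := by
  refine Tendsto.congr ?_ (Tendsto.add h h')
  intro r
  rw [← add_div]
  congr 1
  exact (integral_add (integrableOn_of_bdd hf hM measure_ball_lt_top)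
    (integrableOn_of_bdd hg hM' measure_ball_lt_top)).symm

theorem HasDens.const_mul {f : E3 → ℝ} {x : E3} {d : ℝ} (c : ℝ) (h : HasDens f x d) :
    HasDens (fun y => c * f y) x (c * d) := by
  refine Tendsto.congr ?_ (Tendsto.const_mul c h)
  intro r
  rw [integral_const_mul, mul_div_assoc]

theorem hasDens_const (c : ℝ) (x : E3) : HasDens (fun _ => c) x c := by
  refine Tendsto.congr' ?_ (tendsto_const_nhds (x := c))
  filter_upwards [self_mem_nhdsWithin] with r hr
  have := volume_ball_pos x hr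
  rw [setIntegral_const, Measure.real, smul_eq_mul]
  field_simp

/-- The functions for which all the densities exist and the Girard congruence holds
relative to the finite set `X` of unit vectors. -/
structure Good (X : Finset E3) (f : E3 → ℝ) : Prop where
  meas : Measurable f
  bdd : ∃ M, ∀ y, |f y| ≤ M
  ex : ∃ D : E3 → ℝ, (∀ x, HasDens f x (D x)) ∧ (∀ x, ‖x‖ = 1 → x ∉ X → ∃ z : ℤ, 2 * D x = z) ∧
    ∃ z : ℤ, 4 * D 0 - 2 * ∑ x ∈ X, D x = z

theorem Good.congr {X : Finset E3} {f g : E3 → ℝ} (h : Good X f) (hfg : f =ᵐ[volume] g)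
    (hg : Measurable g) (hb : ∃ M, ∀ y, |g y| ≤ M) : Good X g := by
  obtain ⟨D, h1, h2, h3⟩ := h.ex
  exact ⟨hg, hb, D, fun x => (h1 x).congr_ae hfg, h2, h3⟩

theorem Good.add {X : Finset E3} {f g : E3 → ℝ} (hf : Good X f) (hg : Good X g) :
    Good X (fun y => f y + g y) := by
  obtain ⟨M, hM⟩ := hf.bdd
  obtain ⟨M', hM'⟩ := hg.bdd
  obtain ⟨D, h1, h2, z, hz⟩ := hf.ex
  obtain ⟨D', h1', h2', z', hz'⟩ := hg.ex
  refine ⟨hf.meas.add hg.meas, ⟨M + M', fun y => (abs_add_le _ _).trans (add_le_add (hM y) (hM' y))⟩,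
    fun x => D x + D' x, fun x => (h1 x).add (h1' x) hf.meas hg.meas hM hM', ?_, ?_⟩
  · intro x hx hxX
    obtain ⟨a, ha⟩ := h2 x hx hxX
    obtain ⟨b, hb⟩ := h2' x hx hxX
    exact ⟨a + b, by push_cast; linarith⟩
  · refine ⟨z + z', ?_⟩
    push_cast
    rw [Finset.sum_add_distrib]
    linarith

theorem Good.int_mul {X : Finset E3} {f : E3 → ℝ} (k : ℤ) (hf : Good X f) :
    Good X (fun y => (k : ℝ) * f y) := by
  obtain ⟨M, hM⟩ := hf.bdd
  obtain ⟨D, h1, h2, z, hz⟩ := hf.ex
  refine ⟨hf.meas.const_mul _, ⟨|(k : ℝ)| * M, fun y => ?_⟩, fun x => (k : ℝ) * D x,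
    fun x => (h1 x).const_mul _, ?_, ?_⟩
  · rw [abs_mul]
    exact mul_le_mul_of_nonneg_left (hM y) (abs_nonneg _)
  · intro x hx hxX
    obtain ⟨a, ha⟩ := h2 x hx hxX
    exact ⟨k * a, by push_cast; rw [← ha]; ring⟩
  · refine ⟨k * z, ?_⟩
    push_cast
    rw [← hz, ← Finset.mul_sum]
    ring

theorem Good.sub {X : Finset E3} {f g : E3 → ℝ} (hf : Good X f) (hg : Good X g) :
    Good X (fun y => f y - g y) := by
  have h := hf.add (hg.int_mul (-1))
  have h2 : (fun y => f y - g y) = fun y => f y + ((-1 : ℤ) : ℝ) * g y := by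
    ext y
    push_cast
    ring
  rw [h2]
  exact h

theorem good_zero (X : Finset E3) : Good X (fun _ => 0) := by
  refine ⟨measurable_const, ⟨0, by simp⟩, fun _ => 0, fun x => hasDens_const 0 x, ?_, ?_⟩
  · intro x _ _
    exact ⟨0, by simp⟩
  · exact ⟨0, by simp⟩

theorem Good.sum {X : Finset E3} {ι : Type*} (S : Finset ι) (F : ι → E3 → ℝ)
    (h : ∀ i ∈ S, Good X (F i)) : Good X (fun y => ∑ i ∈ S, F i y) := by
  classical
  induction S using Finset.induction_on with
  | empty => simpa using good_zero X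
  | insert a S ha ih =>
    have h1 := (h a (Finset.mem_insert_self a S)).add
      (ih (fun i hi => h i (Finset.mem_insert_of_mem hi)))
    have h2 : (fun y => ∑ i ∈ insert a S, F i y) = fun y => F a y + ∑ i ∈ S, F i y := by
      ext y
      rw [Finset.sum_insert ha]
    rw [h2]
    exact h1

/-! ### Products of half-space indicators -/

/-- Product of the half-space indicators with normals in `I`. -/
noncomputable def piI (I : Finset E3) : E3 → ℝ := fun y => ∏ n ∈ I, hsI n y

theorem hsI_nonneg (n y : E3) : 0 ≤ hsI n y := by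
  simp only [hsI]; split_ifs <;> simp

theorem hsI_le_one (n y : E3) : hsI n y ≤ 1 := by
  simp only [hsI]; split_ifs <;> simp

theorem measurable_hsI (n : E3) : Measurable (hsI n) := by
  unfold hsI
  refine Measurable.ite ?_ measurable_const measurable_const
  exact (isOpen_lt continuous_const (continuous_const.inner continuous_id)).measurableSet

theorem measurable_piI (I : Finset E3) : Measurable (piI I) := by
  unfold piI
  exact Finset.measurable_prod I (fun n _ => measurable_hsI n)

theorem piI_nonneg (I : Finset E3) (y : E3) : 0 ≤ piI I y :=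
  Finset.prod_nonneg (fun n _ => hsI_nonneg n y)

theorem piI_le_one (I : Finset E3) (y : E3) : piI I y ≤ 1 :=
  Finset.prod_le_one (fun n _ => hsI_nonneg n y) (fun n _ => hsI_le_one n y)

theorem piI_abs (I : Finset E3) (y : E3) : |piI I y| ≤ 1 := by
  rw [abs_of_nonneg (piI_nonneg I y)]
  exact piI_le_one I y

/-- Average over the unit ball. -/
noncomputable def avg (f : E3 → ℝ) : ℝ := (∫ y in ball (0 : E3) 1, f y) / (volume (ball (0 : E3) 1)).toReal

theorem piI_smul (I : Finset E3) {r : ℝ} (hr : 0 < r) (y : E3) : piI I (r • y) = piI I y := by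
  unfold piI hsI
  refine Finset.prod_congr rfl ?_
  intro n _
  simp only [inner_smul_right]
  simp [mul_pos_iff_of_pos_left hr]

theorem piI_add (I : Finset E3) (x : E3) (hx : ∀ n ∈ I, ⟪n, x⟫ = 0) (y : E3) :
    piI I (x + y) = piI I y := by
  unfold piI hsI
  refine Finset.prod_congr rfl ?_
  intro n hn
  simp [inner_add_right, hx n hn]

theorem volume_ball_scale (x : E3) {r : ℝ} (hr : 0 < r) :
    (volume (ball x r)).toReal = r ^ 3 * (volume (ball (0 : E3) 1)).toReal := by
  have h := Measure.addHaar_ball_mul_of_pos (volume : Measure E3) x hr 1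
  rw [mul_one] at h
  rw [h, ENNReal.toReal_mul, finrank_euclideanSpace_fin, ENNReal.toReal_ofReal (by positivity)]

theorem integral_ball_piI (I : Finset E3) (x : E3) (hx : ∀ n ∈ I, ⟪n, x⟫ = 0) {r : ℝ}
    (hr : 0 < r) : ∫ y in ball x r, piI I y = r ^ 3 * ∫ y in ball (0 : E3) 1, piI I y := by
  -- translation
  have h1 : ∫ y in ball x r, piI I y = ∫ y in ball (0 : E3) r, piI I y := by
    have hmp : MeasurePreserving (fun y : E3 => x + y) volume volume :=
      measurePreserving_add_left volume x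
    have hemb : MeasurableEmbedding (fun y : E3 => x + y) :=
      (MeasurableEquiv.addLeft x).measurableEmbedding
    have h2 := hmp.setIntegral_preimage_emb hemb (piI I) (ball x r)
    rw [← h2]
    have h3 : (fun y : E3 => x + y) ⁻¹' ball x r = ball (0 : E3) r := by
      ext y
      simp [mem_ball, dist_eq_norm]
    rw [h3]
    refine integral_congr_ae (Eventually.of_forall ?_)
    intro y
    exact piI_add I x hx y
  have h4 := Measure.setIntegral_comp_smul_of_pos (volume : Measure E3) (piI I)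
    (ball (0 : E3) 1) hr
  rw [smul_unitBall hr.ne', Real.norm_of_nonneg hr.le, finrank_euclideanSpace_fin] at h4
  have h5 : ∫ y in ball (0 : E3) 1, piI I (r • y) = ∫ y in ball (0 : E3) 1, piI I y := by
    refine integral_congr_ae (Eventually.of_forall ?_)
    intro y
    exact piI_smul I hr y
  rw [h1, ← h5, h4, smul_eq_mul]
  field_simp

open Classical in
/-- Near `x` a product of half-space indicators agrees with a constant times the product
over the planes through `x`. -/
theorem piI_near (I : Finset E3) (x : E3) :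
    ∀ᶠ r : ℝ in 𝓝[>] 0, ∀ y ∈ ball x r, piI I y =
      (if ∀ n ∈ I, ⟪n, x⟫ ≠ 0 → 0 < ⟪n, x⟫ then (1 : ℝ) else 0) *
        piI (I.filter (fun n => ⟪n, x⟫ = 0)) y := by
  have h1 : ∀ n ∈ I, ∀ᶠ y in 𝓝 x, ⟪n, x⟫ ≠ 0 → hsI n y = if 0 < ⟪n, x⟫ then 1 else 0 := by
    intro n _
    have hc : Continuous (fun y : E3 => ⟪n, y⟫) := continuous_const.inner continuous_id
    rcases lt_trichotomy (⟪n, x⟫) 0 with h | h | h
    · filter_upwards [hc.continuousAt.eventually_lt_const (u := 0) h] with y hy _
      simp [hsI, not_lt.mpr hy.le, not_lt.mpr h.le]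
    · exact Eventually.of_forall (fun y hne => absurd h hne)
    · filter_upwards [hc.continuousAt.eventually_const_lt (u := 0) h] with y hy _
      simp [hsI, hy, h]
  have h2 : ∀ᶠ y in 𝓝 x, ∀ n ∈ I, ⟪n, x⟫ ≠ 0 → hsI n y = if 0 < ⟪n, x⟫ then 1 else 0 :=
    (Finset.eventually_all I).mpr h1
  obtain ⟨ρ, hρ, hball⟩ := Metric.eventually_nhds_iff_ball.mp h2
  have h3 : Ioo (0 : ℝ) ρ ∈ 𝓝[>] (0 : ℝ) := Ioo_mem_nhdsGT hρ
  filter_upwards [h3] with r hr y hy
  have hy' : y ∈ ball x ρ := ball_subset_ball hr.2.le hy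
  have h4 := hball y hy'
  have h5 : piI I y = (∏ n ∈ I.filter (fun n => ⟪n, x⟫ = 0), hsI n y) *
      ∏ n ∈ I.filter (fun n => ¬ ⟪n, x⟫ = 0), hsI n y := by
    rw [Finset.prod_filter_mul_prod_filter_not]
    rfl
  have h6 : ∏ n ∈ I.filter (fun n => ¬ ⟪n, x⟫ = 0), hsI n y =
      if ∀ n ∈ I, ⟪n, x⟫ ≠ 0 → 0 < ⟪n, x⟫ then (1 : ℝ) else 0 := by
    split_ifs with hc
    · refine Finset.prod_eq_one ?_
      intro n hn
      rw [Finset.mem_filter] at hn
      rw [h4 n hn.1 hn.2, if_pos (hc n hn.1 hn.2)]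
    · push Not at hc
      obtain ⟨n, hn, hne, hle⟩ := hc
      refine Finset.prod_eq_zero (i := n) (Finset.mem_filter.mpr ⟨hn, hne⟩) ?_
      rw [h4 n hn hne, if_neg (not_lt.mpr hle)]
  rw [h5, h6]
  exact mul_comm _ _

open Classical in
/-- The density of a product of half-space indicators. -/
theorem hasDens_piI (I : Finset E3) (x : E3) :
    HasDens (piI I) x ((if ∀ n ∈ I, ⟪n, x⟫ ≠ 0 → 0 < ⟪n, x⟫ then (1 : ℝ) else 0) *
      avg (piI (I.filter (fun n => ⟪n, x⟫ = 0)))) := by
  refine Tendsto.congr' ?_ (tendsto_const_nhds)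
  filter_upwards [piI_near I x, self_mem_nhdsWithin] with r hr hr0
  have hr0' : (0 : ℝ) < r := hr0
  have h1 : ∫ y in ball x r, piI I y = ∫ y in ball x r,
      (if ∀ n ∈ I, ⟪n, x⟫ ≠ 0 → 0 < ⟪n, x⟫ then (1 : ℝ) else 0) *
        piI (I.filter (fun n => ⟪n, x⟫ = 0)) y :=
    setIntegral_congr_fun measurableSet_ball hr
  rw [h1, integral_const_mul, integral_ball_piI _ x _ hr0', volume_ball_scale x hr0', avg]
  · have hv := volume_ball_pos (0 : E3) one_pos
    field_simp
  · intro n hn
    exact (Finset.mem_filter.mp hn).2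

end Run7.h801
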