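import Mathlib
import Pool.Agent.Run7.h801.Dens

/-!
# Orthogonality facts in three-space
-/

open MeasureTheory Metric Set Filter Topology
open scoped RealInnerProductSpace

namespace Run7.h801

theorem exists_orth_unit (n m : E3) (h : LinearIndependent ℝ ![n, m]) :
    ∃ p : E3, ‖p‖ = 1 ∧ ⟪n, p⟫ = 0 ∧ ⟪m, p⟫ = 0 ∧
      ∀ x : E3, ‖x‖ = 1 → ⟪n, x⟫ = 0 → ⟪m, x⟫ = 0 → x = p ∨ x = -p := by
  let K : Submodule ℝ E3 := Submodule.span ℝ (Set.range ![n, m])
  have hK : Module.finrank ℝ K = 2 := by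
    have := finrank_span_eq_card h
    simpa using this
  have hKo : Module.finrank ℝ Kᗮ = 1 := by
    have h1 := K.finrank_add_finrank_orthogonal
    rw [hK, finrank_euclideanSpace_fin] at h1
    omega
  have hmem : ∀ x : E3, x ∈ Kᗮ ↔ ⟪n, x⟫ = 0 ∧ ⟪m, x⟫ = 0 := by
    intro x
    rw [Submodule.mem_orthogonal]
    constructor
    · intro hx
      exact ⟨hx n (Submodule.subset_span ⟨0, rfl⟩), hx m (Submodule.subset_span ⟨1, rfl⟩)⟩
    · rintro ⟨h1, h2⟩ u hu
      refine Submodule.span_induction (p := fun u _ => ⟪u, x⟫ = 0) ?_ ?_ ?_ ?_ hu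
      · rintro _ ⟨i, rfl⟩
        fin_cases i
        · exact h1
        · exact h2
      · simp
      · intro a b _ _ ha hb
        rw [inner_add_left, ha, hb, add_zero]
      · intro a b _ hb
        rw [inner_smul_left, hb, mul_zero]
  have hnt : Nontrivial Kᗮ := Module.nontrivial_of_finrank_eq_succ hKo
  obtain ⟨v, hv⟩ := exists_ne (0 : Kᗮ)
  have hv0 : (v : E3) ≠ 0 := by simpa using hv
  have hnv : ‖(v : E3)‖ ≠ 0 := by simpa using hv0
  refine ⟨(‖(v : E3)‖)⁻¹ • (v : E3), ?_, ?_, ?_, ?_⟩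
  · rw [norm_smul, norm_inv, norm_norm, inv_mul_cancel₀ hnv]
  · rw [inner_smul_right, ((hmem v).1 v.2).1, mul_zero]
  · rw [inner_smul_right, ((hmem v).1 v.2).2, mul_zero]
  · intro x hx h1 h2
    obtain ⟨c, hc⟩ := (finrank_eq_one_iff_of_nonzero' v hv).1 hKo ⟨x, (hmem x).2 ⟨h1, h2⟩⟩
    have hc' : c • (v : E3) = x := congrArg Subtype.val hc
    have h3 : |c| * ‖(v : E3)‖ = 1 := by
      rw [← hx, ← hc', norm_smul, Real.norm_eq_abs]
    rcases abs_cases c with ⟨ha, _⟩ | ⟨ha, _⟩
    · left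
      rw [← hc']
      congr 1
      rw [ha] at h3
      field_simp
      linarith
    · right
      rw [← hc', ← neg_smul]
      congr 1
      rw [ha] at h3
      field_simp
      linarith

theorem not_all_orth (n m l : E3) (h : LinearIndependent ℝ ![n, m, l]) (x : E3) (hx : x ≠ 0)
    (h1 : ⟪n, x⟫ = 0) (h2 : ⟪m, x⟫ = 0) (h3 : ⟪l, x⟫ = 0) : False := by
  have htop := h.span_eq_top_of_card_eq_finrank (by simp)
  apply hx
  have hmem : x ∈ Submodule.span ℝ (Set.range ![n, m, l]) := by
    rw [htop]; exact Submodule.mem_top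
  have h0 : ⟪x, x⟫ = 0 := by
    refine Submodule.span_induction (p := fun u _ => ⟪u, x⟫ = 0) ?_ ?_ ?_ ?_ hmem
    · rintro _ ⟨i, rfl⟩
      fin_cases i
      · exact h1
      · exact h2
      · exact h3
    · simp
    · intro a b _ _ ha hb
      rw [inner_add_left, ha, hb, add_zero]
    · intro a b _ hb
      rw [inner_smul_left, hb, mul_zero]
  exact inner_self_eq_zero.mp h0

theorem plane_null (n : E3) (hn : n ≠ 0) : volume {y : E3 | ⟪n, y⟫ = 0} = 0 := by
  have h := Measure.addHaar_submodule (volume : Measure E3) (Submodule.span ℝ {n})ᗮ ?_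
  · convert h using 2
    ext y
    simp [Submodule.mem_orthogonal_singleton_iff_inner_right]
  · intro htop
    rw [Submodule.orthogonal_eq_top_iff] at htop
    apply hn
    have : n ∈ Submodule.span ℝ {n} := Submodule.mem_span_singleton_self n
    rw [htop] at this
    simpa using this

theorem ae_off_plane (n : E3) (hn : n ≠ 0) : ∀ᵐ y : E3, ⟪n, y⟫ ≠ 0 := by
  rw [ae_iff]
  simpa using plane_null n hn

/-! ### Averages -/

theorem avg_congr_ae {f g : E3 → ℝ} (h : f =ᵐ[volume] g) : avg f = avg g := by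
  unfold avg
  congr 1
  exact integral_congr_ae (ae_restrict_of_ae h)

theorem avg_neg (f : E3 → ℝ) : avg (fun y => f (-y)) = avg f := by
  unfold avg
  congr 1
  have hmp : MeasurePreserving (fun y : E3 => -y) volume volume := Measure.measurePreserving_neg volume
  have hemb : MeasurableEmbedding (fun y : E3 => -y) := (MeasurableEquiv.neg E3).measurableEmbedding
  have h := hmp.setIntegral_preimage_emb hemb f (ball 0 1)
  rw [← h]
  congr 2
  ext y
  simp [mem_ball, dist_eq_norm]

theorem avg_add {f g : E3 → ℝ} (hf : Measurable f) (hg : Measurable g) {M M' : ℝ}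
    (hM : ∀ y, |f y| ≤ M) (hM' : ∀ y, |g y| ≤ M') : avg (fun y => f y + g y) = avg f + avg g := by
  unfold avg
  rw [← add_div]
  congr 1
  exact integral_add (integrableOn_of_bdd hf hM measure_ball_lt_top)
    (integrableOn_of_bdd hg hM' measure_ball_lt_top)

theorem avg_const_mul (c : ℝ) (f : E3 → ℝ) : avg (fun y => c * f y) = c * avg f := by
  unfold avg
  rw [integral_const_mul, mul_div_assoc]

theorem avg_one : avg (fun _ => 1) = 1 := by
  unfold avg
  have := volume_ball_pos (0 : E3) one_pos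
  rw [setIntegral_const, Measure.real, smul_eq_mul]
  field_simp

theorem hsI_neg (n y : E3) (h : ⟪n, y⟫ ≠ 0) : hsI n (-y) = 1 - hsI n y := by
  unfold hsI
  rw [inner_neg_right]
  rcases lt_or_gt_of_ne h with h | h
  · simp [h, not_lt.mpr h.le]
  · simp [h, not_lt.mpr h.le]

theorem avg_hsI (n : E3) (hn : n ≠ 0) : avg (hsI n) = 1 / 2 := by
  have h1 : avg (fun y => hsI n (-y)) = avg (hsI n) := avg_neg (hsI n)
  have h2 : avg (fun y => hsI n (-y)) = avg (fun y => 1 + (-1) * hsI n y) := by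
    refine avg_congr_ae ?_
    filter_upwards [ae_off_plane n hn] with y hy
    rw [hsI_neg n y hy]
    ring
  rw [avg_add measurable_const ((measurable_hsI n).const_mul _) (M := 1) (M' := 1) (by simp)
    (fun y => by rw [abs_mul]; simpa [abs_of_nonneg (hsI_nonneg n y)] using hsI_le_one n y),
    avg_const_mul, avg_one] at h2
  linarith

/-- **Girard's theorem**, in terms of averages: inclusion-exclusion and the antipodal map. -/
theorem girard (n m l : E3) (hn : n ≠ 0) (hm : m ≠ 0) (hl : l ≠ 0) :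
    2 * avg (fun y => hsI n y * hsI m y * hsI l y) =
      avg (fun y => hsI n y * hsI m y) + avg (fun y => hsI m y * hsI l y) +
        avg (fun y => hsI n y * hsI l y) - 1 / 2 := by
  have key : avg (fun y => hsI n y * hsI m y * hsI l y) =
      avg (fun y => (1 + (-1) * hsI n y) + ((-1) * hsI m y + (-1) * hsI l y) +
        (hsI n y * hsI m y + hsI m y * hsI l y + hsI n y * hsI l y) +
        (-1) * (hsI n y * hsI m y * hsI l y)) := by
    rw [← avg_neg (fun y => hsI n y * hsI m y * hsI l y)]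
    refine avg_congr_ae ?_
    filter_upwards [ae_off_plane n hn, ae_off_plane m hm, ae_off_plane l hl] with y h1 h2 h3
    rw [hsI_neg n y h1, hsI_neg m y h2, hsI_neg l y h3]
    ring
  have mn := measurable_hsI n
  have mm := measurable_hsI m
  have ml := measurable_hsI l
  have bn : ∀ y, |hsI n y| ≤ 1 := fun y => by
    rw [abs_of_nonneg (hsI_nonneg n y)]; exact hsI_le_one n y
  have bm : ∀ y, |hsI m y| ≤ 1 := fun y => by
    rw [abs_of_nonneg (hsI_nonneg m y)]; exact hsI_le_one m y
  have bl : ∀ y, |hsI l y| ≤ 1 := fun y => by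
    rw [abs_of_nonneg (hsI_nonneg l y)]; exact hsI_le_one l y
  have bmul : ∀ {a b : ℝ}, |a| ≤ 1 → |b| ≤ 1 → |a * b| ≤ 1 := by
    intro a b ha hb
    rw [abs_mul]
    exact mul_le_one₀ ha (abs_nonneg _) hb
  have badd : ∀ {a b M M' : ℝ}, |a| ≤ M → |b| ≤ M' → |a + b| ≤ M + M' := by
    intro a b M M' ha hb
    exact (abs_add_le _ _).trans (add_le_add ha hb)
  have bneg : ∀ {a : ℝ}, |a| ≤ 1 → |(-1) * a| ≤ 1 := by
    intro a ha
    simpa [abs_mul] using ha
  rw [avg_add (M := 1 + 1 + (1 + 1) + (1 + 1 + 1)) (M' := 1) (by fun_prop) (by fun_prop)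
    (fun y => badd (badd (badd (by simp) (bneg (bn y))) (badd (bneg (bm y)) (bneg (bl y))))
      (badd (badd (bmul (bn y) (bm y)) (bmul (bm y) (bl y))) (bmul (bn y) (bl y))))
    (fun y => bneg (bmul (bmul (bn y) (bm y)) (bl y))),
    avg_add (M := 1 + 1 + (1 + 1)) (M' := 1 + 1 + 1) (by fun_prop) (by fun_prop)
    (fun y => badd (badd (by simp) (bneg (bn y))) (badd (bneg (bm y)) (bneg (bl y))))
    (fun y => badd (badd (bmul (bn y) (bm y)) (bmul (bm y) (bl y))) (bmul (bn y) (bl y))),
    avg_add (M := 1 + 1) (M' := 1 + 1) (by fun_prop) (by fun_prop)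
    (fun y => badd (by simp) (bneg (bn y))) (fun y => badd (bneg (bm y)) (bneg (bl y))),
    avg_add (M := 1) (M' := 1) (by fun_prop) (by fun_prop) (by simp) (fun y => bneg (bn y)),
    avg_add (M := 1) (M' := 1) (by fun_prop) (by fun_prop) (fun y => bneg (bm y))
      (fun y => bneg (bl y)),
    avg_add (M := 1 + 1) (M' := 1) (by fun_prop) (by fun_prop)
      (fun y => badd (bmul (bn y) (bm y)) (bmul (bm y) (bl y))) (fun y => bmul (bn y) (bl y)),
    avg_add (M := 1) (M' := 1) (by fun_prop) (by fun_prop)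
      (fun y => bmul (bn y) (bm y)) (fun y => bmul (bm y) (bl y)),
    avg_const_mul, avg_const_mul, avg_const_mul, avg_const_mul, avg_one, avg_hsI n hn,
    avg_hsI m hm, avg_hsI l hl] at key
  linarith

end Run7.h801
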