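import Mathlib
import Pool.Agent.Run7.h801.Geo

/-!
# The Girard congruence for products of independent half-spaces
-/

open MeasureTheory Metric Set Filter Topology
open scoped RealInnerProductSpace

namespace Run7.h801

/-- `X` is a finite set of unit vectors containing all the intersection points of pairs of
distinct planes with normals in `s`. -/
structure CornerSet (s X : Finset E3) : Prop where
  unit : ∀ x ∈ X, ‖x‖ = 1
  mem : ∀ x, ‖x‖ = 1 → ∀ n ∈ s, ∀ m ∈ s, LinearIndependent ℝ ![n, m] → ⟪n, x⟫ = 0 →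
    ⟪m, x⟫ = 0 → x ∈ X

theorem exists_cornerSet (s : Finset E3) : ∃ X : Finset E3, CornerSet s X := by
  classical
  have hfin : Set.Finite {x : E3 | ‖x‖ = 1 ∧ ∃ n ∈ s, ∃ m ∈ s, LinearIndependent ℝ ![n, m] ∧
      ⟪n, x⟫ = 0 ∧ ⟪m, x⟫ = 0} := by
    have h1 : {x : E3 | ‖x‖ = 1 ∧ ∃ n ∈ s, ∃ m ∈ s, LinearIndependent ℝ ![n, m] ∧
        ⟪n, x⟫ = 0 ∧ ⟪m, x⟫ = 0} = ⋃ n ∈ s, ⋃ m ∈ s, {x : E3 | ‖x‖ = 1 ∧
        LinearIndependent ℝ ![n, m] ∧ ⟪n, x⟫ = 0 ∧ ⟪m, x⟫ = 0} := by
      ext x
      simp only [mem_ofPred_eq, mem_iUnion, exists_prop]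
      constructor
      · rintro ⟨h, n, hn, m, hm, h2⟩
        exact ⟨n, hn, m, hm, h, h2⟩
      · rintro ⟨n, hn, m, hm, h, h2⟩
        exact ⟨h, n, hn, m, hm, h2⟩
    rw [h1]
    refine Set.Finite.biUnion s.finite_toSet ?_
    intro n _
    refine Set.Finite.biUnion s.finite_toSet ?_
    intro m _
    by_cases h : LinearIndependent ℝ ![n, m]
    · obtain ⟨p, -, -, -, hp⟩ := exists_orth_unit n m h
      refine Set.Finite.subset (Set.toFinite {p, -p}) ?_
      rintro x ⟨hx, -, h2, h3⟩
      exact hp x hx h2 h3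
    · refine Set.Finite.subset Set.finite_empty ?_
      rintro x ⟨-, h2, -⟩
      exact absurd h2 h
  refine ⟨hfin.toFinset, ?_, ?_⟩
  · intro x hx
    rw [Set.Finite.mem_toFinset] at hx
    exact hx.1
  · intro x hx n hn m hm h h1 h2
    rw [Set.Finite.mem_toFinset]
    exact ⟨hx, n, hn, m, hm, h, h1, h2⟩

open Classical in
/-- The density of `piI J` at `x`. -/
noncomputable def dpi (J : Finset E3) (x : E3) : ℝ :=
  (if ∀ n ∈ J, ⟪n, x⟫ ≠ 0 → 0 < ⟪n, x⟫ then (1 : ℝ) else 0) *
      avg (piI (J.filter (fun n => ⟪n, x⟫ = 0)))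

theorem avg_piI_empty : avg (piI ∅) = 1 := by
  have : piI ∅ = fun _ => 1 := by
    ext y; simp [piI]
  rw [this, avg_one]

theorem avg_piI_single (n : E3) (hn : n ≠ 0) : avg (piI {n}) = 1 / 2 := by
  have : piI {n} = hsI n := by
    ext y; simp [piI]
  rw [this, avg_hsI n hn]

theorem dpi_int (J : Finset E3) (h0 : ∀ n ∈ J, n ≠ 0) (x : E3)
    (h : ∀ n ∈ J, ∀ m ∈ J, n ≠ m → ⟪n, x⟫ = 0 → ⟪m, x⟫ = 0 → ∃ l ∈ J, ⟪l, x⟫ < 0) :
    ∃ z : ℤ, 2 * dpi J x = z := by
  classical
  by_cases hc : ∀ n ∈ J, ⟪n, x⟫ ≠ 0 → 0 < ⟪n, x⟫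
  · have hcard : (J.filter (fun n => ⟪n, x⟫ = 0)).card ≤ 1 := by
      rw [Finset.card_le_one]
      intro n hn m hm
      rw [Finset.mem_filter] at hn hm
      by_contra hne
      obtain ⟨l, hl, hneg⟩ := h n hn.1 m hm.1 hne hn.2 hm.2
      have := hc l hl hneg.ne
      linarith
    unfold dpi
    rw [if_pos hc, one_mul]
    rcases Finset.eq_empty_or_nonempty (J.filter (fun n => ⟪n, x⟫ = 0)) with he | ⟨n, hn⟩
    · rw [he, avg_piI_empty]
      exact ⟨2, by norm_num⟩
    · have he : J.filter (fun n => ⟪n, x⟫ = 0) = {n} := by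
        rw [Finset.eq_singleton_iff_unique_mem]
        exact ⟨hn, fun m hm => Finset.card_le_one.mp hcard m hm n hn⟩
      rw [he, avg_piI_single n (h0 n (Finset.mem_filter.mp hn).1)]
      exact ⟨1, by norm_num⟩
  · refine ⟨0, ?_⟩
    unfold dpi
    rw [if_neg hc]
    simp

theorem dpi_zero (J : Finset E3) : dpi J 0 = avg (piI J) := by
  classical
  unfold dpi
  simp

theorem dpi_orth (J : Finset E3) (K : Finset E3) (x : E3) (hK : K ⊆ J)
    (hz : ∀ n ∈ K, ⟪n, x⟫ = 0) (hp : ∀ n ∈ J, n ∉ K → 0 < ⟪n, x⟫) : dpi J x = avg (piI K) := by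
  classical
  unfold dpi
  have h1 : ∀ n ∈ J, ⟪n, x⟫ ≠ 0 → 0 < ⟪n, x⟫ := by
    intro n hn hne
    by_cases hnK : n ∈ K
    · exact absurd (hz n hnK) hne
    · exact hp n hn hnK
  have h2 : J.filter (fun n => ⟪n, x⟫ = 0) = K := by
    ext n
    rw [Finset.mem_filter]
    constructor
    · rintro ⟨hn, h0⟩
      by_contra hnK
      have := hp n hn hnK
      linarith
    · intro hn
      exact ⟨hK hn, hz n hn⟩
  rw [if_pos h1, one_mul]
  congr 2

theorem sum_split (X P : Finset E3) (D : E3 → ℝ) (hP : P ⊆ X)
    (h : ∀ x ∈ X, x ∉ P → ∃ z : ℤ, 2 * D x = z) :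
    ∃ z : ℤ, 2 * ∑ x ∈ X, D x = 2 * ∑ x ∈ P, D x + z := by
  classical
  rw [← Finset.sum_sdiff hP]
  have h1 : ∃ z : ℤ, 2 * ∑ x ∈ X \ P, D x = z := by
    have h2 : ∀ x ∈ X \ P, ∃ z : ℤ, 2 * D x = z := by
      intro x hx
      rw [Finset.mem_sdiff] at hx
      exact h x hx.1 hx.2
    choose! z hz using h2
    refine ⟨∑ x ∈ X \ P, z x, ?_⟩
    push_cast
    rw [Finset.mul_sum]
    exact Finset.sum_congr rfl hz
  obtain ⟨z, hz⟩ := h1
  exact ⟨z, by linarith⟩

theorem avg_piI_pair (n m : E3) (h : n ≠ m) :
    avg (piI {n, m}) = avg (fun y => hsI n y * hsI m y) := by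
  have : piI {n, m} = fun y => hsI n y * hsI m y := by
    ext y; simp [piI, Finset.prod_pair h]
  rw [this]

theorem avg_piI_triple (n m l : E3) (h : n ≠ m) (h' : n ≠ l) (h'' : m ≠ l) :
    avg (piI {n, m, l}) = avg (fun y => hsI n y * hsI m y * hsI l y) := by
  have : piI {n, m, l} = fun y => hsI n y * hsI m y * hsI l y := by
    ext y
    simp only [piI]
    rw [Finset.prod_insert (by simp [h, h']), Finset.prod_pair h'']
    ring
  rw [this]

theorem good_indep (s X : Finset E3) (hX : CornerSet s X) (J : Finset E3) (hJs : J ⊆ s)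
    (hJ : ∀ c : E3 → ℝ, ∑ n ∈ J, c n • n = 0 → ∀ n ∈ J, c n = 0) : Good X (piI J) := by
  classical
  have h0 : ∀ n ∈ J, n ≠ 0 := by
    rintro n hn rfl
    have := hJ (fun m => if m = 0 then 1 else 0) (by
      refine Finset.sum_eq_zero ?_
      intro m _
      by_cases hm : m = 0 <;> simp [hm]) 0 hn
    simp at this
  have hpair : ∀ n ∈ J, ∀ m ∈ J, n ≠ m → LinearIndependent ℝ ![n, m] := by
    intro n hn m hm hne
    rw [LinearIndependent.pair_iff]
    intro a b hab
    have h1 := hJ (fun x => if x = n then a else if x = m then b else 0) (by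
      rw [← Finset.sum_subset (s₁ := {n, m}) (by
        intro x hx
        simp only [Finset.mem_insert, Finset.mem_singleton] at hx
        rcases hx with rfl | rfl <;> assumption)
        (by
          intro x _ hx
          simp only [Finset.mem_insert, Finset.mem_singleton, not_or] at hx
          simp [hx.1, hx.2])]
      rw [Finset.sum_pair hne]
      simpa [hne.symm] using hab)
    refine ⟨?_, ?_⟩
    · simpa using h1 n hn
    · simpa [hne.symm] using h1 m hm
  have hcard : J.card ≤ 3 := by
    have hli : LinearIndependent ℝ (fun n : J => (n : E3)) := by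
      rw [Fintype.linearIndependent_iff]
      intro g hg n
      have h1 := hJ (fun x => if hx : x ∈ J then g ⟨x, hx⟩ else 0) (by
        rw [← hg, ← Finset.sum_coe_sort J]
        refine Finset.sum_congr rfl ?_
        intro x _
        simp)
      simpa using h1 n n.2
    have h2 := hli.fintype_card_le_finrank
    simpa [finrank_euclideanSpace_fin] using h2
  refine ⟨measurable_piI J, ⟨1, piI_abs J⟩, dpi J, fun x => hasDens_piI J x, ?_, ?_⟩
  · intro x hx hxX
    refine dpi_int J h0 x ?_
    intro n hn m hm hne h1 h2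
    exact absurd (hX.mem x hx n (hJs hn) m (hJs hm) (hpair n hn m hm hne) h1 h2) hxX
  · rw [dpi_zero]
    have hcases : J.card = 0 ∨ J.card = 1 ∨ J.card = 2 ∨ J.card = 3 := by omega
    rcases hcases with hc | hc | hc | hc
    · -- empty
      rw [Finset.card_eq_zero] at hc
      subst hc
      obtain ⟨z, hz⟩ := sum_split X ∅ (dpi ∅) (Finset.empty_subset _)
        (fun x _ _ => dpi_int ∅ (by simp) x (by simp))
      rw [avg_piI_empty, hz]
      exact ⟨4 - z, by simp⟩
    · obtain ⟨n, rfl⟩ := Finset.card_eq_one.mp hc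
      obtain ⟨z, hz⟩ := sum_split X ∅ (dpi {n}) (Finset.empty_subset _)
        (fun x _ _ => dpi_int {n} h0 x (by simp))
      rw [avg_piI_single n (h0 n (by simp)), hz]
      exact ⟨2 - z, by push_cast; simp; ring⟩
    · obtain ⟨n, m, hne, rfl⟩ := Finset.card_eq_two.mp hc
      have hnm := hpair n (by simp) m (by simp) hne
      obtain ⟨p, hp1, hpn, hpm, hpu⟩ := exists_orth_unit n m hnm
      have hpX : p ∈ X := hX.mem p hp1 n (hJs (by simp)) m (hJs (by simp)) hnm hpn hpm
      have hpX' : -p ∈ X := hX.mem (-p) (by simpa using hp1) n (hJs (by simp)) m (hJs (by simp))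
        hnm (by simpa using hpn) (by simpa using hpm)
      have hpne : p ≠ -p := by
        intro h
        have : p = 0 := by
          have h3 : (2 : ℝ) • p = 0 := by
            rw [two_smul]
            nth_rewrite 2 [h]
            simp
          exact (smul_eq_zero.mp h3).resolve_left (by norm_num)
        rw [this] at hp1
        simp at hp1
      obtain ⟨z, hz⟩ := sum_split X {p, -p} (dpi {n, m}) (by
          intro x hx
          simp only [Finset.mem_insert, Finset.mem_singleton] at hx
          rcases hx with rfl | rfl <;> assumption) (by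
          intro x hxX hxP
          refine dpi_int {n, m} h0 x ?_
          have hboth : ¬ (⟪n, x⟫ = 0 ∧ ⟪m, x⟫ = 0) := by
            rintro ⟨h1, h2⟩
            apply hxP
            simpa using hpu x (hX.unit x hxX) h1 h2
          intro a ha b hb hab h1 h2
          exfalso
          apply hboth
          simp only [Finset.mem_insert, Finset.mem_singleton] at ha hb
          rcases ha with rfl | rfl <;> rcases hb with rfl | rfl
          · exact absurd rfl hab
          · exact ⟨h1, h2⟩
          · exact ⟨h2, h1⟩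
          · exact absurd rfl hab)
      rw [hz, Finset.sum_pair hpne,
        dpi_orth {n, m} {n, m} p (Finset.Subset.refl _) (by simp [hpn, hpm])
          (fun a ha hna => absurd ha hna),
        dpi_orth {n, m} {n, m} (-p) (Finset.Subset.refl _) (by simp [hpn, hpm])
          (fun a ha hna => absurd ha hna)]
      exact ⟨-z, by push_cast; ring⟩
    · obtain ⟨n, m, l, hnm, hnl, hml, rfl⟩ := Finset.card_eq_three.mp hc
      have hn0 := h0 n (by simp)
      have hm0 := h0 m (by simp)
      have hl0 := h0 l (by simp)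
      have hnmi := hpair n (by simp) m (by simp) hnm
      have hnli := hpair n (by simp) l (by simp) hnl
      have hmli := hpair m (by simp) l (by simp) hml
      have hli3 : LinearIndependent ℝ ![n, m, l] := by
        rw [Fintype.linearIndependent_iff]
        intro g hg
        have h1 := hJ (fun x => if x = n then g 0 else if x = m then g 1 else g 2) (by
          rw [Finset.sum_insert (by simp [hnm, hnl]), Finset.sum_pair hml]
          simp only [if_true, hnm.symm, if_false, hnl.symm, hml.symm]
          rw [Fin.sum_univ_three] at hg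
          simpa [add_assoc] using hg)
        intro i
        fin_cases i
        · simpa using h1 n (by simp)
        · simpa [hnm.symm] using h1 m (by simp)
        · simpa [hnl.symm, hml.symm] using h1 l (by simp)
      -- the three corners
      have hcorner : ∀ a ∈ ({n, m, l} : Finset E3), ∀ b ∈ ({n, m, l} : Finset E3),
          ∀ c ∈ ({n, m, l} : Finset E3), LinearIndependent ℝ ![a, b] →
          (∀ x : E3, x ≠ 0 → ⟪a, x⟫ = 0 → ⟪b, x⟫ = 0 → ⟪c, x⟫ ≠ 0) →
          ∃ p ∈ X, ⟪a, p⟫ = 0 ∧ ⟪b, p⟫ = 0 ∧ 0 < ⟪c, p⟫ ∧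
            ∀ x ∈ X, ⟪a, x⟫ = 0 → ⟪b, x⟫ = 0 → x ≠ p → ⟪c, x⟫ < 0 := by
        intro a ha b hb c hc' hab hne
        obtain ⟨p, hp1, hpa, hpb, hpu⟩ := exists_orth_unit a b hab
        have hp0 : p ≠ 0 := by
          rintro rfl
          simp at hp1
        have hpc := hne p hp0 hpa hpb
        rcases lt_or_gt_of_ne hpc with hlt | hgt
        · refine ⟨-p, hX.mem (-p) (by simpa using hp1) a (hJs ha) b (hJs hb) hab
            (by simpa using hpa) (by simpa using hpb), by simpa using hpa, by simpa using hpb,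
            by simpa using hlt, ?_⟩
          intro x hx h1 h2 h3
          rcases hpu x (hX.unit x hx) h1 h2 with rfl | rfl
          · exact hlt
          · exact absurd rfl h3
        · refine ⟨p, hX.mem p hp1 a (hJs ha) b (hJs hb) hab hpa hpb, hpa, hpb, hgt, ?_⟩
          intro x hx h1 h2 h3
          rcases hpu x (hX.unit x hx) h1 h2 with rfl | rfl
          · exact absurd rfl h3
          · simpa using hgt
      obtain ⟨p3, hp3X, hp3n, hp3m, hp3l, hp3u⟩ := hcorner n (by simp) m (by simp) l (by simp) hnmi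
        (fun x hx h1 h2 h3 => not_all_orth n m l hli3 x hx h1 h2 h3)
      obtain ⟨p2, hp2X, hp2n, hp2l, hp2m, hp2u⟩ := hcorner n (by simp) l (by simp) m (by simp) hnli
        (fun x hx h1 h2 h3 => not_all_orth n m l hli3 x hx h1 h3 h2)
      obtain ⟨p1, hp1X, hp1m, hp1l, hp1n, hp1u⟩ := hcorner m (by simp) l (by simp) n (by simp) hmli
        (fun x hx h1 h2 h3 => not_all_orth n m l hli3 x hx h3 h1 h2)
      have h12 : p1 ≠ p2 := by
        rintro rfl
        linarith
      have h13 : p1 ≠ p3 := by
        rintro rfl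
        linarith
      have h23 : p2 ≠ p3 := by
        rintro rfl
        linarith
      obtain ⟨z, hz⟩ := sum_split X {p1, p2, p3} (dpi {n, m, l}) (by
          intro x hx
          simp only [Finset.mem_insert, Finset.mem_singleton] at hx
          rcases hx with rfl | rfl | rfl <;> assumption) (by
          intro x hxX hxP
          simp only [Finset.mem_insert, Finset.mem_singleton, not_or] at hxP
          refine dpi_int {n, m, l} h0 x ?_
          intro a ha b hb hab h1 h2
          simp only [Finset.mem_insert, Finset.mem_singleton] at ha hb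
          rcases ha with rfl | rfl | rfl <;> rcases hb with rfl | rfl | rfl
          · exact absurd rfl hab
          · exact ⟨l, by simp, hp3u x hxX h1 h2 hxP.2.2⟩
          · exact ⟨m, by simp, hp2u x hxX h1 h2 hxP.2.1⟩
          · exact ⟨l, by simp, hp3u x hxX h2 h1 hxP.2.2⟩
          · exact absurd rfl hab
          · exact ⟨n, by simp, hp1u x hxX h1 h2 hxP.1⟩
          · exact ⟨m, by simp, hp2u x hxX h2 h1 hxP.2.1⟩
          · exact ⟨n, by simp, hp1u x hxX h2 h1 hxP.1⟩
          · exact absurd rfl hab)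
      have hd1 : dpi {n, m, l} p1 = avg (piI {m, l}) := by
        refine dpi_orth _ _ p1 (by intro x hx; simp at hx ⊢; tauto) (by simp [hp1m, hp1l]) ?_
        intro a ha hna
        simp only [Finset.mem_insert, Finset.mem_singleton, not_or] at ha hna
        rcases ha with rfl | rfl | rfl
        · exact hp1n
        · exact absurd rfl hna.1
        · exact absurd rfl hna.2
      have hd2 : dpi {n, m, l} p2 = avg (piI {n, l}) := by
        refine dpi_orth _ _ p2 (by intro x hx; simp at hx ⊢; tauto) (by simp [hp2n, hp2l]) ?_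
        intro a ha hna
        simp only [Finset.mem_insert, Finset.mem_singleton, not_or] at ha hna
        rcases ha with rfl | rfl | rfl
        · exact absurd rfl hna.1
        · exact hp2m
        · exact absurd rfl hna.2
      have hd3 : dpi {n, m, l} p3 = avg (piI {n, m}) := by
        refine dpi_orth _ _ p3 (by intro x hx; simp at hx ⊢; tauto) (by simp [hp3n, hp3m]) ?_
        intro a ha hna
        simp only [Finset.mem_insert, Finset.mem_singleton, not_or] at ha hna
        rcases ha with rfl | rfl | rfl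
        · exact absurd rfl hna.1
        · exact absurd rfl hna.2
        · exact hp3l
      have hg := girard n m l hn0 hm0 hl0
      rw [hz, Finset.sum_insert (by simp [h12, h13]), Finset.sum_pair h23, hd1, hd2, hd3,
        avg_piI_triple n m l hnm hnl hml, avg_piI_pair n m hnm, avg_piI_pair m l hml,
        avg_piI_pair n l hnl]
      refine ⟨-1 - z, ?_⟩
      push_cast
      linarith

end Run7.h801
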