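import Mathlib
import Pool.Agent.Run7.h801.Base

/-!
# The Girard congruence for unions of cells of a plane arrangement
-/

open MeasureTheory Metric Set Filter Topology
open scoped RealInnerProductSpace

namespace Run7.h801

/-- Cell function: positive side for `P`, nonpositive side for `Q`. -/
noncomputable def cellI (P Q : Finset E3) : E3 → ℝ :=
  fun y => (∏ n ∈ P, hsI n y) * ∏ n ∈ Q, (1 - hsI n y)

theorem cellI_toggle (U Q : Finset E3) (q : E3) (hq : q ∈ U) (hqQ : q ∉ Q) [DecidableEq E3]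
    (y : E3) :
    cellI (U \ Q) Q y + cellI (U \ insert q Q) (insert q Q) y = cellI ((U.erase q) \ Q) Q y := by
  have h1 : U \ Q = insert q ((U.erase q) \ Q) := by
    ext x
    simp only [Finset.mem_sdiff, Finset.mem_insert, Finset.mem_erase]
    constructor
    · rintro ⟨h, h'⟩
      by_cases hx : x = q
      · exact Or.inl hx
      · exact Or.inr ⟨⟨hx, h⟩, h'⟩
    · rintro (rfl | ⟨⟨_, h⟩, h'⟩)
      · exact ⟨hq, hqQ⟩
      · exact ⟨h, h'⟩
  have h2 : U \ insert q Q = (U.erase q) \ Q := by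
    ext x
    simp only [Finset.mem_sdiff, Finset.mem_insert, Finset.mem_erase, not_or]
    tauto
  have h3 : q ∉ (U.erase q) \ Q := by simp
  unfold cellI
  rw [h2, h1, Finset.prod_insert h3, Finset.prod_insert hqQ]
  ring

theorem cellI_bdd (P Q : Finset E3) (y : E3) : |cellI P Q y| ≤ 1 := by
  unfold cellI
  have h1 : 0 ≤ ∏ n ∈ P, hsI n y := Finset.prod_nonneg (fun n _ => hsI_nonneg n y)
  have h2 : ∏ n ∈ P, hsI n y ≤ 1 :=
    Finset.prod_le_one (fun n _ => hsI_nonneg n y) (fun n _ => hsI_le_one n y)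
  have h3 : 0 ≤ ∏ n ∈ Q, (1 - hsI n y) :=
    Finset.prod_nonneg (fun n _ => by linarith [hsI_le_one n y])
  have h4 : ∏ n ∈ Q, (1 - hsI n y) ≤ 1 :=
    Finset.prod_le_one (fun n _ => by linarith [hsI_le_one n y])
      (fun n _ => by linarith [hsI_nonneg n y])
  rw [abs_of_nonneg (mul_nonneg h1 h3)]
  exact mul_le_one₀ h2 h3 h4

theorem measurable_cellI (P Q : Finset E3) : Measurable (cellI P Q) := by
  unfold cellI
  refine Measurable.mul ?_ ?_
  · exact Finset.measurable_prod P (fun n _ => measurable_hsI n)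
  · exact Finset.measurable_prod Q (fun n _ => measurable_const.sub (measurable_hsI n))

theorem ae_off_planes (s : Finset E3) (hs : ∀ n ∈ s, n ≠ 0) :
    ∀ᵐ y : E3, ∀ n ∈ s, ⟪n, y⟫ ≠ 0 := by
  rw [Finset.eventually_all]
  intro n hn
  exact ae_off_plane n (hs n hn)

theorem good_cell (s X : Finset E3) (hX : CornerSet s X) (hs : ∀ n ∈ s, n ≠ 0)
    [DecidableEq E3] :
    ∀ m : ℕ, ∀ U ⊆ s, U.card = m → ∀ Q ⊆ U, Good X (cellI (U \ Q) Q) := by
  intro m
  induction m using Nat.strong_induction_on with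
  | _ m ih =>
    intro U hU hcard
    -- toggling
    have htog : ∀ Q ⊆ U, ∀ q ∈ U, q ∉ Q → Good X (cellI ((U.erase q) \ Q) Q) := by
      intro Q hQ q hq hqQ
      refine ih (U.erase q).card ?_ (U.erase q) ((Finset.erase_subset _ _).trans hU) rfl Q ?_
      · rw [← hcard]
        exact Finset.card_erase_lt_of_mem hq
      · intro x hx
        rw [Finset.mem_erase]
        refine ⟨?_, hQ hx⟩
        rintro rfl
        exact hqQ hx
    have hup : ∀ Q ⊆ U, ∀ q ∈ U, q ∉ Q → Good X (cellI (U \ Q) Q) →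
        Good X (cellI (U \ insert q Q) (insert q Q)) := by
      intro Q hQ q hq hqQ h
      have h1 := (htog Q hQ q hq hqQ).sub h
      have h2 : cellI (U \ insert q Q) (insert q Q) =
          fun y => cellI ((U.erase q) \ Q) Q y - cellI (U \ Q) Q y := by
        ext y
        have := cellI_toggle U Q q hq hqQ y
        linarith
      rw [h2]
      exact h1
    have hdown : ∀ Q ⊆ U, ∀ q ∈ U, q ∉ Q → Good X (cellI (U \ insert q Q) (insert q Q)) →
        Good X (cellI (U \ Q) Q) := by
      intro Q hQ q hq hqQ h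
      have h1 := (htog Q hQ q hq hqQ).sub h
      have h2 : cellI (U \ Q) Q =
          fun y => cellI ((U.erase q) \ Q) Q y - cellI (U \ insert q Q) (insert q Q) y := by
        ext y
        have := cellI_toggle U Q q hq hqQ y
        linarith
      rw [h2]
      exact h1
    -- some good cell
    have hsome : ∃ Q ⊆ U, Good X (cellI (U \ Q) Q) := by
      by_cases hind : ∀ c : E3 → ℝ, ∑ n ∈ U, c n • n = 0 → ∀ n ∈ U, c n = 0
      · refine ⟨∅, Finset.empty_subset _, ?_⟩
        have h1 : cellI (U \ ∅) ∅ = piI U := by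
          ext y
          simp [cellI, piI]
        rw [h1]
        exact good_indep s X hX U hU hind
      · push Not at hind
        obtain ⟨c, hc, n0, hn0, hcn0⟩ := hind
        refine ⟨U.filter (fun n => c n < 0), Finset.filter_subset _ _, ?_⟩
        refine (good_zero X).congr ?_ (measurable_cellI _ _) ⟨1, cellI_bdd _ _⟩
        filter_upwards [ae_off_planes s hs] with y hy
        by_contra hne
        have hne' : cellI (U \ U.filter (fun n => c n < 0)) (U.filter (fun n => c n < 0)) y ≠ 0 :=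
          fun h => hne h.symm
        unfold cellI at hne'
        have h1 : ∀ n ∈ U, ¬ c n < 0 → 0 < ⟪n, y⟫ := by
          intro n hn hcn
          by_contra hlt
          apply hne'
          refine mul_eq_zero_of_left (Finset.prod_eq_zero (i := n) ?_ ?_) _
          · simp [hn, hcn]
          · simp [hsI, hlt]
        have h2 : ∀ n ∈ U, c n < 0 → ⟪n, y⟫ < 0 := by
          intro n hn hcn
          have h3 := hy n (hU hn)
          by_contra hge
          have hpos : 0 < ⟪n, y⟫ := lt_of_le_of_ne (not_lt.mp hge) (Ne.symm h3)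
          apply hne'
          refine mul_eq_zero_of_right _ (Finset.prod_eq_zero (i := n) ?_ ?_)
          · simp [hn, hcn]
          · simp [hsI, hpos]
        have h3 : ∑ n ∈ U, c n * ⟪n, y⟫ = 0 := by
          have := congrArg (fun z => ⟪z, y⟫) hc
          simpa [sum_inner, inner_smul_left] using this
        have h4 : ∀ n ∈ U, 0 ≤ c n * ⟪n, y⟫ := by
          intro n hn
          by_cases hcn : c n < 0
          · exact mul_nonneg_of_nonpos_of_nonpos hcn.le (h2 n hn hcn).le
          · exact mul_nonneg (not_lt.mp hcn) (h1 n hn hcn).le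
        have h5 : 0 < ∑ n ∈ U, c n * ⟪n, y⟫ := by
          refine Finset.sum_pos' h4 ⟨n0, hn0, ?_⟩
          by_cases hcn : c n0 < 0
          · exact mul_pos_of_neg_of_neg hcn (h2 n0 hn0 hcn)
          · exact mul_pos (lt_of_le_of_ne (not_lt.mp hcn) (Ne.symm hcn0)) (h1 n0 hn0 hcn)
        linarith
    obtain ⟨Q0, hQ0, hgood0⟩ := hsome
    have hempty : ∀ Q : Finset E3, Q ⊆ U → Good X (cellI (U \ Q) Q) → Good X (cellI (U \ ∅) ∅) := by
      intro Q
      induction Q using Finset.induction_on with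
      | empty => intro _ h; exact h
      | insert q Q hq ihQ =>
        intro hQ h
        have hQ' : Q ⊆ U := (Finset.subset_insert _ _).trans hQ
        exact ihQ hQ' (hdown Q hQ' q (hQ (Finset.mem_insert_self _ _)) hq h)
    have hall : ∀ Q : Finset E3, Q ⊆ U → Good X (cellI (U \ Q) Q) := by
      intro Q
      induction Q using Finset.induction_on with
      | empty => intro _; exact hempty Q0 hQ0 hgood0
      | insert q Q hq ihQ =>
        intro hQ
        have hQ' : Q ⊆ U := (Finset.subset_insert _ _).trans hQ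
        exact hup Q hQ' q (hQ (Finset.mem_insert_self _ _)) hq (ihQ hQ')
    exact hall

/-- The volume fractions of `K` in the balls about `x` converge to `d`. -/
def HasDensSet (K : Set E3) (x : E3) (d : ℝ) : Prop :=
  Tendsto (fun r : ℝ => (volume (K ∩ ball x r)).toReal / (volume (ball x r)).toReal)
    (𝓝[>] 0) (𝓝 d)

/-- `K` is a union of cells of the arrangement `s`, up to the planes themselves. -/
def Cellular (s : Finset E3) (K : Set E3) : Prop :=
  ∀ y y' : E3, (∀ n ∈ s, ⟪n, y⟫ ≠ 0) → (∀ n ∈ s, ⟪n, y'⟫ ≠ 0) →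
    (∀ n ∈ s, (0 < ⟪n, y⟫ ↔ 0 < ⟪n, y'⟫)) → y ∈ K → y' ∈ K

theorem cellular_main (s X : Finset E3) (hX : CornerSet s X) (hs : ∀ n ∈ s, n ≠ 0)
    (K : Set E3) (hK : Cellular s K) :
    NullMeasurableSet K volume ∧ ∃ D : E3 → ℝ, (∀ x, HasDensSet K x (D x)) ∧
      (∀ x, ‖x‖ = 1 → x ∉ X → ∃ z : ℤ, 2 * D x = z) ∧
      ∃ z : ℤ, 4 * D 0 - 2 * ∑ x ∈ X, D x = z := by
  classical
  let 𝒮 : Finset (Finset E3) := s.powerset.filter
    (fun Q => ∃ y ∈ K, (∀ n ∈ s, ⟪n, y⟫ ≠ 0) ∧ Q = s.filter (fun n => ⟪n, y⟫ < 0))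
  let f : E3 → ℝ := fun y => ∑ Q ∈ 𝒮, cellI (s \ Q) Q y
  have hgood : Good X f := by
    refine Good.sum 𝒮 (fun Q => cellI (s \ Q) Q) ?_
    intro Q hQ
    have hQs : Q ⊆ s := Finset.mem_powerset.mp (Finset.mem_filter.mp hQ).1
    exact good_cell s X hX hs s.card s (Finset.Subset.refl _) rfl Q hQs
  have hcell : ∀ y : E3, (∀ n ∈ s, ⟪n, y⟫ ≠ 0) → ∀ Q ⊆ s,
      cellI (s \ Q) Q y = if Q = s.filter (fun n => ⟪n, y⟫ < 0) then 1 else 0 := by
    intro y hy Q hQ
    split_ifs with h
    · unfold cellI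
      rw [Finset.prod_eq_one, Finset.prod_eq_one, one_mul]
      · intro n hn
        rw [h, Finset.mem_filter] at hn
        simp [hsI, not_lt.mpr hn.2.le]
      · intro n hn
        rw [Finset.mem_sdiff, h, Finset.mem_filter, not_and] at hn
        have h1 := hn.2 hn.1
        have h2 : 0 < ⟪n, y⟫ := lt_of_le_of_ne (not_lt.mp h1) (Ne.symm (hy n hn.1))
        simp [hsI, h2]
    · have : ∃ n ∈ s, ¬ (n ∈ Q ↔ ⟪n, y⟫ < 0) := by
        by_contra hcon
        push Not at hcon
        apply h
        ext n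
        rw [Finset.mem_filter]
        constructor
        · intro hn
          exact ⟨hQ hn, (hcon n (hQ hn)).1 hn⟩
        · rintro ⟨hn, hlt⟩
          exact (hcon n hn).2 hlt
      obtain ⟨n, hn, hnot⟩ := this
      unfold cellI
      by_cases hnQ : n ∈ Q
      · have h1 : ¬ ⟪n, y⟫ < 0 := fun hlt => hnot ⟨fun _ => hlt, fun _ => hnQ⟩
        have h2 : 0 < ⟪n, y⟫ := lt_of_le_of_ne (not_lt.mp h1) (Ne.symm (hy n hn))
        refine mul_eq_zero_of_right _ (Finset.prod_eq_zero hnQ ?_)
        simp [hsI, h2]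
      · have h1 : ⟪n, y⟫ < 0 := by
          by_contra hlt
          exact hnot ⟨fun h => absurd h hnQ, fun h => absurd h hlt⟩
        refine mul_eq_zero_of_left (Finset.prod_eq_zero (i := n)
          (Finset.mem_sdiff.mpr ⟨hn, hnQ⟩) ?_) _
        simp [hsI, not_lt.mpr h1.le]
  have hf : ∀ y : E3, (∀ n ∈ s, ⟪n, y⟫ ≠ 0) → f y = if y ∈ K then 1 else 0 := by
    intro y hy
    have h1 : f y = ∑ Q ∈ 𝒮, if Q = s.filter (fun n => ⟪n, y⟫ < 0) then (1 : ℝ) else 0 := by
      refine Finset.sum_congr rfl ?_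
      intro Q hQ
      exact hcell y hy Q (Finset.mem_powerset.mp (Finset.mem_filter.mp hQ).1)
    rw [h1, Finset.sum_ite_eq']
    have h2 : s.filter (fun n => ⟪n, y⟫ < 0) ∈ 𝒮 ↔ y ∈ K := by
      rw [Finset.mem_filter]
      constructor
      · rintro ⟨-, y', hy'K, hy', heq⟩
        refine hK y' y hy' hy ?_ hy'K
        intro n hn
        have h3 : ⟪n, y⟫ < 0 ↔ ⟪n, y'⟫ < 0 := by
          have h4 : n ∈ s.filter (fun n => ⟪n, y⟫ < 0) ↔ n ∈ s.filter (fun n => ⟪n, y'⟫ < 0) := by
            rw [heq]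
          rw [Finset.mem_filter, Finset.mem_filter] at h4
          constructor
          · intro h; exact (h4.1 ⟨hn, h⟩).2
          · intro h; exact (h4.2 ⟨hn, h⟩).2
        have h5 : 0 < ⟪n, y'⟫ ↔ ¬ ⟪n, y'⟫ < 0 :=
          ⟨fun h => not_lt.mpr h.le, fun h => lt_of_le_of_ne (not_lt.mp h) (Ne.symm (hy' n hn))⟩
        have h6 : 0 < ⟪n, y⟫ ↔ ¬ ⟪n, y⟫ < 0 :=
          ⟨fun h => not_lt.mpr h.le, fun h => lt_of_le_of_ne (not_lt.mp h) (Ne.symm (hy n hn))⟩
        rw [h5, h6, h3]
      · intro hyK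
        exact ⟨Finset.mem_powerset.mpr (Finset.filter_subset _ _), y, hyK, hy, rfl⟩
    by_cases hyK : y ∈ K
    · rw [if_pos (h2.2 hyK), if_pos hyK]
    · rw [if_neg (fun h => hyK (h2.1 h)), if_neg hyK]
  -- the measurable model of `K`
  let K' : Set E3 := {y | f y = 1}
  have hK'm : MeasurableSet K' := measurableSet_eq_fun hgood.meas measurable_const
  have hKK' : K =ᵐ[volume] K' := by
    filter_upwards [ae_off_planes s hs] with y hy
    have h1 := hf y hy
    refine propext ?_
    change y ∈ K ↔ f y = 1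
    rw [h1]
    split_ifs with h <;> simp [h]
  have hind : f =ᵐ[volume] K'.indicator (fun _ => (1 : ℝ)) := by
    filter_upwards [ae_off_planes s hs] with y hy
    have h1 := hf y hy
    by_cases hyK : y ∈ K
    · rw [if_pos hyK] at h1
      have : y ∈ K' := h1
      rw [indicator_of_mem this, h1]
    · rw [if_neg hyK] at h1
      have : y ∉ K' := by
        intro h
        have h2 : f y = 1 := h
        rw [h1] at h2
        norm_num at h2
      rw [indicator_of_notMem this, h1]
  refine ⟨⟨K', hK'm, hKK'⟩, ?_⟩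
  obtain ⟨D, hD, hD2, hD3⟩ := hgood.ex
  refine ⟨D, ?_, hD2, hD3⟩
  intro x
  refine Tendsto.congr ?_ (hD x)
  intro r
  congr 1
  calc ∫ y in ball x r, f y = ∫ y in ball x r, K'.indicator (fun _ => (1 : ℝ)) y :=
        integral_congr_ae (ae_restrict_of_ae hind)
    _ = (volume (K' ∩ ball x r)).toReal := by
        rw [setIntegral_indicator hK'm, setIntegral_const, smul_eq_mul, mul_one, Measure.real,
          inter_comm]
    _ = (volume (K ∩ ball x r)).toReal := by
        rw [measure_congr (hKK'.inter (ae_eq_refl (ball x r)))]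

end Run7.h801
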