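import Mathlib

/-!
# Tilings of the unit sphere by congruent closed sets: definitions
-/

open MeasureTheory Metric Set Filter Topology
open scoped RealInnerProductSpace

namespace Run7.h801

/-- The unit sphere of Euclidean three-space, with the (chordal) metric of the space. -/
abbrev S2 : Type := Metric.sphere (0 : EuclideanSpace ℝ (Fin 3)) 1

/-- `B` is the image of `A` under a linear isometry of three-space (an element of `O(3)`). -/
def Congruent (A B : Set S2) : Prop :=
  ∃ g : EuclideanSpace ℝ (Fin 3) ≃ₗᵢ[ℝ] EuclideanSpace ℝ (Fin 3),
    (Subtype.val '' B : Set (EuclideanSpace ℝ (Fin 3))) = g '' (Subtype.val '' A)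

/-- A finite family of pairwise congruent closed subsets of the sphere, of diameter less
than `ε`, with pairwise disjoint interiors, which covers the sphere.  (An `ε`-tiling in the
sense of the problem is such a family of connected sets; connectedness is not needed.) -/
structure IsCongruentTiling (ε : ℝ) {N : ℕ} (T : Fin N → Set S2) : Prop where
  isClosed : ∀ i, IsClosed (T i)
  cover : ⋃ i, T i = univ
  congruent : ∀ i j, Congruent (T i) (T j)
  disjoint : ∀ i j, i ≠ j → Disjoint (interior (T i)) (interior (T j))
  diam_lt : ∀ i, Metric.diam (T i) < ε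

/-- The boundary of `A` (relative to the sphere) is contained in a finite union of great
circles. -/
def OnGreatCircles (A : Set S2) : Prop :=
  ∃ s : Finset (EuclideanSpace ℝ (Fin 3)), (∀ n ∈ s, n ≠ 0) ∧
    ∀ x ∈ frontier A, ∃ n ∈ s, ⟪n, (x : EuclideanSpace ℝ (Fin 3))⟫ = 0

/-- The open cone `{t • x | t > 0, x ∈ A}` over `A`. -/
def cone (A : Set S2) : Set (EuclideanSpace ℝ (Fin 3)) :=
  {y | ∃ t : ℝ, 0 < t ∧ ∃ x ∈ A, y = t • (x : EuclideanSpace ℝ (Fin 3))}

/-- The interior angle of `A` at the point `x` of the sphere: `2π` times the Lebesgue density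
at `x` of the cone over `A`.  For a polygonal set it is the dihedral angle of the cone along
the ray through `x`: it is `2π` at interior points, `0` at exterior points, `π` at points in
the relative interior of a side, and the usual interior angle at a vertex. -/
noncomputable def interiorAngle (A : Set S2) (x : S2) : ℝ :=
  2 * Real.pi * limUnder (𝓝[>] (0 : ℝ)) (fun r : ℝ =>
    (volume (cone A ∩ ball (x : EuclideanSpace ℝ (Fin 3)) r)).toReal /
      (volume (ball (x : EuclideanSpace ℝ (Fin 3)) r)).toReal)

/-- The corners of `A`: the points at which the interior angle is not `0`, `π` or `2π`. -/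
def corners (A : Set S2) : Set S2 :=
  {x | interiorAngle A x ≠ 0 ∧ interiorAngle A x ≠ Real.pi ∧ interiorAngle A x ≠ 2 * Real.pi}

end Run7.h801
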