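import Mathlib
import Pool.Agent.Run7.h801.Defs
import Pool.Agent.Run7.h801.Cells

/-!
# Geometry of congruent tilings of the sphere
-/

open MeasureTheory Metric Set Filter Topology
open scoped RealInnerProductSpace

namespace Run7.h801

open scoped Pointwise

theorem preconn_frontier {α : Type*} [TopologicalSpace α] {S A : Set α} (hS : IsPreconnected S)
    (h1 : (S ∩ A).Nonempty) (h2 : (S ∩ Aᶜ).Nonempty) : (S ∩ frontier A).Nonempty := by
  by_contra hcon
  rw [not_nonempty_iff_eq_empty] at hcon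
  have hnot : ∀ x ∈ S, x ∉ frontier A := fun x hx hf => by
    have : x ∈ S ∩ frontier A := ⟨hx, hf⟩
    rw [hcon] at this
    exact this
  have hin : ∀ x ∈ S, x ∈ A → x ∈ interior A := by
    intro x hx hxA
    by_contra hni
    exact hnot x hx ⟨subset_closure hxA, hni⟩
  have hout : ∀ x ∈ S, x ∉ A → x ∈ (closure A)ᶜ := by
    intro x hx hxA hcl
    exact hnot x hx ⟨hcl, fun hi => hxA (interior_subset hi)⟩
  obtain ⟨x, hx, hxA⟩ := h1
  obtain ⟨y, hy, hyA⟩ := h2
  obtain ⟨z, -, hz1, hz2⟩ := hS (interior A) (closure A)ᶜ isOpen_interior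
    isClosed_closure.isOpen_compl (by
      intro w hw
      by_cases hwA : w ∈ A
      · exact Or.inl (hin w hw hwA)
      · exact Or.inr (hout w hw hwA)) ⟨x, hx, hin x hx hxA⟩ ⟨y, hy, hout y hy hyA⟩
  exact hz2 (subset_closure (interior_subset hz1))

theorem S2_norm (x : S2) : ‖(x : E3)‖ = 1 := by simp

theorem S2_ne_zero (x : S2) : (x : E3) ≠ 0 := by
  intro h
  have := S2_norm x
  rw [h] at this
  simp at this

/-- A base point of the sphere. -/
noncomputable def basePt : S2 := ⟨EuclideanSpace.single 0 1, by simp⟩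

open Classical in
/-- Radial projection to the sphere. -/
noncomputable def proj (z : E3) : S2 :=
  if h : z = 0 then basePt else ⟨‖z‖⁻¹ • z, by
    have : ‖z‖ ≠ 0 := norm_ne_zero_iff.mpr h
    simp [norm_smul, this]⟩

theorem proj_val (z : E3) (hz : z ≠ 0) : ((proj z : S2) : E3) = ‖z‖⁻¹ • z := by
  unfold proj
  rw [dif_neg hz]

theorem proj_smul (t : ℝ) (ht : 0 < t) (x : S2) : proj (t • (x : E3)) = x := by
  have hne : t • (x : E3) ≠ 0 := smul_ne_zero ht.ne' (S2_ne_zero x)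
  apply Subtype.ext
  rw [proj_val _ hne, norm_smul, S2_norm x, mul_one, Real.norm_of_nonneg ht.le, smul_smul,
    inv_mul_cancel₀ ht.ne', one_smul]

theorem proj_self (x : S2) : proj (x : E3) = x := by
  have := proj_smul 1 one_pos x
  rwa [one_smul] at this

theorem smul_proj (z : E3) (hz : z ≠ 0) : ‖z‖ • ((proj z : S2) : E3) = z := by
  rw [proj_val z hz, smul_smul, mul_inv_cancel₀ (norm_ne_zero_iff.mpr hz), one_smul]

theorem mem_cone_iff (A : Set S2) (z : E3) : z ∈ cone A ↔ z ≠ 0 ∧ proj z ∈ A := by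
  constructor
  · rintro ⟨t, ht, x, hx, rfl⟩
    refine ⟨smul_ne_zero ht.ne' (S2_ne_zero x), ?_⟩
    rw [proj_smul t ht x]
    exact hx
  · rintro ⟨hz, hA⟩
    exact ⟨‖z‖, norm_pos_iff.mpr hz, proj z, hA, (smul_proj z hz).symm⟩

theorem continuousOn_proj : ContinuousOn proj {z : E3 | z ≠ 0} := by
  rw [Topology.IsInducing.subtypeVal.continuousOn_iff]
  have h : ContinuousOn (fun z : E3 => ‖z‖⁻¹ • z) {z : E3 | z ≠ 0} := by
    refine ContinuousOn.smul (ContinuousOn.inv₀ continuous_norm.continuousOn ?_) continuousOn_id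
    intro z hz
    exact norm_ne_zero_iff.mpr hz
  refine h.congr ?_
  intro z hz
  exact proj_val z hz

theorem inner_proj_pos (n z : E3) (hz : z ≠ 0) : 0 < ⟪n, ((proj z : S2) : E3)⟫ ↔ 0 < ⟪n, z⟫ := by
  rw [proj_val z hz, inner_smul_right]
  exact mul_pos_iff_of_pos_left (inv_pos.mpr (norm_pos_iff.mpr hz))

theorem inner_proj_eq_zero (n z : E3) (hz : z ≠ 0) :
    ⟪n, ((proj z : S2) : E3)⟫ = 0 ↔ ⟪n, z⟫ = 0 := by
  rw [proj_val z hz, inner_smul_right, mul_eq_zero]
  constructor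
  · rintro (h | h)
    · exact absurd h (inv_ne_zero (norm_ne_zero_iff.mpr hz))
    · exact h
  · exact Or.inr

/-- The cone over a set with boundary on great circles is cellular. -/
theorem cellular_cone (A : Set S2) (s : Finset E3) (hne : s.Nonempty)
    (hA : ∀ x ∈ frontier A, ∃ n ∈ s, ⟪n, (x : E3)⟫ = 0) : Cellular s (cone A) := by
  intro y y' hy hy' hsign hyA
  obtain ⟨n0, hn0⟩ := hne
  have hseg : ∀ z ∈ segment ℝ y y', ∀ n ∈ s, ⟪n, z⟫ ≠ 0 := by
    rintro z ⟨a, b, ha, hb, hab, rfl⟩ n hn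
    rw [inner_add_right, inner_smul_right, inner_smul_right]
    have h1 := hsign n hn
    rcases lt_or_gt_of_ne (hy n hn) with hlt | hgt
    · have h2 : ⟪n, y'⟫ < 0 := by
        refine lt_of_le_of_ne (not_lt.mp ?_) (hy' n hn)
        rw [← h1]
        exact not_lt.mpr hlt.le
      have h3 : a * ⟪n, y⟫ + b * ⟪n, y'⟫ < 0 := by
        rcases ha.eq_or_lt with h | h
        · have hb1 : b = 1 := by linarith
          rw [← h, hb1]
          linarith
        · have h4 : a * ⟪n, y⟫ < 0 := mul_neg_of_pos_of_neg h hlt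
          have h5 : b * ⟪n, y'⟫ ≤ 0 := mul_nonpos_of_nonneg_of_nonpos hb h2.le
          linarith
      exact h3.ne
    · have h2 : 0 < ⟪n, y'⟫ := h1.1 hgt
      have h3 : 0 < a * ⟪n, y⟫ + b * ⟪n, y'⟫ := by
        rcases ha.eq_or_lt with h | h
        · have hb1 : b = 1 := by linarith
          rw [← h, hb1]
          linarith
        · have h4 : 0 < a * ⟪n, y⟫ := mul_pos h hgt
          have h5 : 0 ≤ b * ⟪n, y'⟫ := mul_nonneg hb h2.le
          linarith
      exact h3.ne'
  have hseg0 : ∀ z ∈ segment ℝ y y', z ≠ 0 := by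
    rintro z hz rfl
    exact hseg 0 hz n0 hn0 (inner_zero_right _)
  have hconn : IsPreconnected (proj '' segment ℝ y y') :=
    (convex_segment y y').isPreconnected.image _
      (continuousOn_proj.mono (fun z hz => hseg0 z hz))
  rw [mem_cone_iff] at hyA ⊢
  refine ⟨hseg0 y' (right_mem_segment ℝ y y'), ?_⟩
  by_contra hcon
  have h1 : ((proj '' segment ℝ y y') ∩ A).Nonempty :=
    ⟨proj y, ⟨y, left_mem_segment ℝ y y', rfl⟩, hyA.2⟩
  have h2 : ((proj '' segment ℝ y y') ∩ Aᶜ).Nonempty :=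
    ⟨proj y', ⟨y', right_mem_segment ℝ y y', rfl⟩, hcon⟩
  obtain ⟨_, ⟨z, hz, rfl⟩, hfr⟩ := preconn_frontier hconn h1 h2
  obtain ⟨n, hn, h0⟩ := hA _ hfr
  rw [inner_proj_eq_zero n z (hseg0 z hz)] at h0
  exact hseg z hz n hn h0

/-- Outside a closed set the density of the cone vanishes. -/
theorem dens_of_notMem (A : Set S2) (hA : IsClosed A) (x : S2) (hx : x ∉ A) :
    HasDensSet (cone A) x 0 := by
  have h1 : ∀ᶠ z in 𝓝 (x : E3), z ≠ 0 ∧ proj z ∈ Aᶜ := by
    have hopen : {z : E3 | z ≠ 0} ∈ 𝓝 (x : E3) := isOpen_ne.mem_nhds (S2_ne_zero x)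
    have hc : ContinuousAt proj (x : E3) := continuousOn_proj.continuousAt hopen
    have h2 : Aᶜ ∈ 𝓝 (proj (x : E3)) := by
      rw [proj_self x]
      exact hA.isOpen_compl.mem_nhds hx
    filter_upwards [hopen, hc h2] with z hz1 hz2
    exact ⟨hz1, hz2⟩
  obtain ⟨ρ, hρ, hball⟩ := Metric.eventually_nhds_iff_ball.mp h1
  refine Tendsto.congr' ?_ (tendsto_const_nhds (x := (0 : ℝ)))
  filter_upwards [Ioo_mem_nhdsGT hρ] with r hr
  have h3 : cone A ∩ ball (x : E3) r = ∅ := by
    rw [Set.eq_empty_iff_forall_notMem]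
    rintro z ⟨hz1, hz2⟩
    have h4 := hball z (ball_subset_ball hr.2.le hz2)
    exact h4.2 ((mem_cone_iff A z).1 hz1).2
  rw [h3]
  simp

theorem cone_ball_scale (A : Set S2) {r : ℝ} (hr : 0 < r) :
    (volume (cone A ∩ ball (0 : E3) r)).toReal =
      r ^ 3 * (volume (cone A ∩ ball (0 : E3) 1)).toReal := by
  have h1 : cone A ∩ ball (0 : E3) r = r • (cone A ∩ ball (0 : E3) 1) := by
    ext z
    rw [mem_smul_set_iff_inv_smul_mem₀ hr.ne', mem_inter_iff, mem_inter_iff, mem_ball_zero_iff,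
      mem_ball_zero_iff, norm_smul, norm_inv, Real.norm_of_nonneg hr.le]
    have h2 : z ∈ cone A ↔ r⁻¹ • z ∈ cone A := by
      constructor
      · rintro ⟨t, ht, x, hx, rfl⟩
        exact ⟨r⁻¹ * t, by positivity, x, hx, by rw [smul_smul]⟩
      · rintro ⟨t, ht, x, hx, h⟩
        refine ⟨r * t, by positivity, x, hx, ?_⟩
        rw [← smul_smul, ← h, smul_smul, mul_inv_cancel₀ hr.ne', one_smul]
    rw [← h2]
    have h3 : ‖z‖ < r ↔ r⁻¹ * ‖z‖ < 1 := by
      rw [inv_mul_lt_iff₀ hr, mul_one]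
    rw [h3]
  rw [h1, Measure.addHaar_smul, finrank_euclideanSpace_fin, ENNReal.toReal_mul,
    ENNReal.toReal_ofReal (abs_nonneg _), abs_of_nonneg (by positivity)]

theorem dens_zero (A : Set S2) (d : ℝ) (h : HasDensSet (cone A) 0 d) :
    d = (volume (cone A ∩ ball (0 : E3) 1)).toReal / (volume (ball (0 : E3) 1)).toReal := by
  refine tendsto_nhds_unique h ?_
  refine Tendsto.congr' ?_ (tendsto_const_nhds)
  filter_upwards [self_mem_nhdsWithin] with r hr
  have hr' : (0 : ℝ) < r := hr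
  rw [cone_ball_scale A hr', volume_ball_scale 0 hr']
  have := volume_ball_pos (0 : E3) one_pos
  field_simp

/-! ### Isometries -/

/-- The homeomorphism of the sphere induced by a linear isometry. -/
noncomputable def sphHomeo (g : E3 ≃ₗᵢ[ℝ] E3) : S2 ≃ₜ S2 where
  toFun x := ⟨g x, by simp⟩
  invFun x := ⟨g.symm x, by simp⟩
  left_inv x := by apply Subtype.ext; simp
  right_inv x := by apply Subtype.ext; simp
  continuous_toFun := Continuous.subtype_mk (g.continuous.comp continuous_subtype_val) _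
  continuous_invFun := Continuous.subtype_mk (g.symm.continuous.comp continuous_subtype_val) _

@[simp] theorem sphHomeo_val (g : E3 ≃ₗᵢ[ℝ] E3) (x : S2) : ((sphHomeo g x : S2) : E3) = g x := rfl

@[simp] theorem sphHomeo_symm_val (g : E3 ≃ₗᵢ[ℝ] E3) (x : S2) :
    (((sphHomeo g).symm x : S2) : E3) = g.symm x := rfl

theorem image_of_congr {A B : Set S2} {g : E3 ≃ₗᵢ[ℝ] E3}
    (h : (Subtype.val '' B : Set E3) = g '' (Subtype.val '' A)) : B = sphHomeo g '' A := by
  ext x
  constructor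
  · intro hx
    have : (x : E3) ∈ (Subtype.val '' B : Set E3) := ⟨x, hx, rfl⟩
    rw [h] at this
    obtain ⟨_, ⟨a, ha, rfl⟩, hax⟩ := this
    exact ⟨a, ha, Subtype.ext hax⟩
  · rintro ⟨a, ha, rfl⟩
    have : g (a : E3) ∈ g '' (Subtype.val '' A) := ⟨a, ⟨a, ha, rfl⟩, rfl⟩
    rw [← h] at this
    obtain ⟨b, hb, hbx⟩ := this
    have : b = sphHomeo g a := Subtype.ext hbx
    rwa [← this]

theorem cone_image (A : Set S2) (g : E3 ≃ₗᵢ[ℝ] E3) : cone (sphHomeo g '' A) = g '' cone A := by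
  ext y
  constructor
  · rintro ⟨t, ht, _, ⟨a, ha, rfl⟩, rfl⟩
    exact ⟨t • (a : E3), ⟨t, ht, a, ha, rfl⟩, by simp⟩
  · rintro ⟨_, ⟨t, ht, a, ha, rfl⟩, rfl⟩
    exact ⟨t, ht, sphHomeo g a, ⟨a, ha, rfl⟩, by simp⟩

theorem volume_cone_image (A : Set S2) (g : E3 ≃ₗᵢ[ℝ] E3) (x : E3) (r : ℝ) :
    volume (cone (sphHomeo g '' A) ∩ ball (g x) r) = volume (cone A ∩ ball x r) := by
  have h1 : cone (sphHomeo g '' A) ∩ ball (g x) r = g '' (cone A ∩ ball x r) := by
    rw [cone_image, image_inter g.injective, LinearIsometryEquiv.image_ball]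
  rw [h1]
  have hmp := g.symm.measurePreserving
  have h2 : g '' (cone A ∩ ball x r) = g.symm ⁻¹' (cone A ∩ ball x r) := by
    ext y
    simp only [mem_image, mem_preimage]
    constructor
    · rintro ⟨z, hz, rfl⟩
      simpa using hz
    · intro hy
      exact ⟨g.symm y, hy, by simp⟩
  rw [h2]
  exact hmp.measure_preimage_equiv (f := g.symm.toMeasurableEquiv) _

theorem densSet_image (A : Set S2) (g : E3 ≃ₗᵢ[ℝ] E3) (x : E3) (d : ℝ) :
    HasDensSet (cone (sphHomeo g '' A)) (g x) d ↔ HasDensSet (cone A) x d := by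
  unfold HasDensSet
  have h1 : ∀ r : ℝ, (volume (cone (sphHomeo g '' A) ∩ ball (g x) r)).toReal /
      (volume (ball (g x) r)).toReal =
      (volume (cone A ∩ ball x r)).toReal / (volume (ball x r)).toReal := by
    intro r
    rw [volume_cone_image]
    congr 2
    rw [Measure.addHaar_ball_center, Measure.addHaar_ball_center volume x]
  simp only [h1]

theorem onGreatCircles_image (A : Set S2) (g : E3 ≃ₗᵢ[ℝ] E3) (h : OnGreatCircles A) :
    OnGreatCircles (sphHomeo g '' A) := by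
  classical
  obtain ⟨s, hs, hfr⟩ := h
  refine ⟨s.image g, ?_, ?_⟩
  · intro n hn
    obtain ⟨m, hm, rfl⟩ := Finset.mem_image.mp hn
    simpa using hs m hm
  · intro x hx
    rw [← Homeomorph.image_frontier] at hx
    obtain ⟨a, ha, rfl⟩ := hx
    obtain ⟨n, hn, h0⟩ := hfr a ha
    refine ⟨g n, Finset.mem_image_of_mem _ hn, ?_⟩
    rw [sphHomeo_val, LinearIsometryEquiv.inner_map_map]
    exact h0

end Run7.h801
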