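import Mathlib
import Pool.Agent.Run7.h801.Tile

/-!
# The partition of space into the cones over the tiles
-/

open MeasureTheory Metric Set Filter Topology
open scoped RealInnerProductSpace

namespace Run7.h801

theorem OnGreatCircles.exists_nonempty {A : Set S2} (h : OnGreatCircles A) :
    ∃ s : Finset E3, s.Nonempty ∧ (∀ n ∈ s, n ≠ 0) ∧
      ∀ x ∈ frontier A, ∃ n ∈ s, ⟪n, (x : E3)⟫ = 0 := by
  classical
  obtain ⟨s, hs, hfr⟩ := h
  refine ⟨insert (basePt : E3) s, Finset.insert_nonempty _ _, ?_, ?_⟩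
  · intro n hn
    rcases Finset.mem_insert.mp hn with rfl | hn
    · exact S2_ne_zero _
    · exact hs n hn
  · intro x hx
    obtain ⟨n, hn, h0⟩ := hfr x hx
    exact ⟨n, Finset.mem_insert_of_mem hn, h0⟩

variable {ε : ℝ} {N : ℕ} {T : Fin N → Set S2}

theorem IsCongruentTiling.exists_isom (h : IsCongruentTiling ε T) (i0 : Fin N) :
    ∃ g : Fin N → (E3 ≃ₗᵢ[ℝ] E3), ∀ i, T i = sphHomeo (g i) '' T i0 := by
  choose g hg using fun i => h.congruent i0 i
  exact ⟨g, fun i => image_of_congr (hg i)⟩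

theorem IsCongruentTiling.onGreatCircles (h : IsCongruentTiling ε T) (i0 : Fin N)
    (hp : OnGreatCircles (T i0)) (i : Fin N) : OnGreatCircles (T i) := by
  obtain ⟨g, hg⟩ := h.exists_isom i0
  rw [hg i]
  exact onGreatCircles_image _ _ hp

theorem cone_nullMeasurable {A : Set S2} (hp : OnGreatCircles A) :
    NullMeasurableSet (cone A) volume := by
  obtain ⟨s, hne, hs, hfr⟩ := hp.exists_nonempty
  obtain ⟨X, hX⟩ := exists_cornerSet s
  exact (cellular_main s X hX hs _ (cellular_cone A s hne hfr)).1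

theorem IsCongruentTiling.aedisjoint (h : IsCongruentTiling ε T) (i0 : Fin N)
    (hp : OnGreatCircles (T i0)) {i j : Fin N} (hij : i ≠ j) :
    AEDisjoint volume (cone (T i)) (cone (T j)) := by
  obtain ⟨s, hs, hfr⟩ := h.onGreatCircles i0 hp i
  obtain ⟨s', hs', hfr'⟩ := h.onGreatCircles i0 hp j
  have hnull : volume {y : E3 | ¬ ((∀ n ∈ s, ⟪n, y⟫ ≠ 0) ∧ ∀ n ∈ s', ⟪n, y⟫ ≠ 0)} = 0 := by
    have := (ae_off_planes s hs).and (ae_off_planes s' hs')
    exact this
  refine measure_mono_null ?_ hnull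
  rintro y ⟨hy1, hy2⟩ ⟨h1, h2⟩
  rw [mem_cone_iff] at hy1 hy2
  have h3 : proj y ∉ frontier (T i) := by
    intro hf
    obtain ⟨n, hn, h0⟩ := hfr _ hf
    rw [inner_proj_eq_zero n y hy1.1] at h0
    exact h1 n hn h0
  have h4 : proj y ∉ frontier (T j) := by
    intro hf
    obtain ⟨n, hn, h0⟩ := hfr' _ hf
    rw [inner_proj_eq_zero n y hy1.1] at h0
    exact h2 n hn h0
  have h5 : proj y ∈ interior (T i) := by
    by_contra hni
    exact h3 ⟨subset_closure hy1.2, hni⟩
  have h6 : proj y ∈ interior (T j) := by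
    by_contra hni
    exact h4 ⟨subset_closure hy2.2, hni⟩
  exact Set.disjoint_left.mp (h.disjoint i j hij) h5 h6

theorem IsCongruentTiling.measure_sum (h : IsCongruentTiling ε T) (i0 : Fin N)
    (hp : OnGreatCircles (T i0)) (x : E3) (r : ℝ) :
    ∑ i, volume (cone (T i) ∩ ball x r) = volume (ball x r) := by
  have h1 : volume (⋃ i, cone (T i) ∩ ball x r) = ∑' i, volume (cone (T i) ∩ ball x r) := by
    refine measure_iUnion₀ ?_ ?_
    · intro i j hij
      exact (h.aedisjoint i0 hp hij).mono inter_subset_left inter_subset_left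
    · intro i
      exact (cone_nullMeasurable (h.onGreatCircles i0 hp i)).inter
        measurableSet_ball.nullMeasurableSet
  rw [tsum_fintype] at h1
  rw [← h1]
  have h2 : (⋃ i, cone (T i) ∩ ball x r) = ball x r \ {0} := by
    ext y
    simp only [mem_iUnion, mem_inter_iff, Set.mem_sdiff, mem_singleton_iff]
    constructor
    · rintro ⟨i, hc, hb⟩
      exact ⟨hb, ((mem_cone_iff _ _).1 hc).1⟩
    · rintro ⟨hb, h0⟩
      have : proj y ∈ ⋃ i, T i := by
        rw [h.cover]; exact mem_univ _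
      obtain ⟨i, hi⟩ := mem_iUnion.mp this
      exact ⟨i, (mem_cone_iff _ _).2 ⟨h0, hi⟩, hb⟩
  rw [h2, measure_sdiff_null (measure_singleton _)]

theorem IsCongruentTiling.dens_sum (h : IsCongruentTiling ε T) (i0 : Fin N)
    (hp : OnGreatCircles (T i0)) (x : E3) (d : Fin N → ℝ)
    (hd : ∀ i, HasDensSet (cone (T i)) x (d i)) : ∑ i, d i = 1 := by
  have h1 : Tendsto (fun r : ℝ => ∑ i, (volume (cone (T i) ∩ ball x r)).toReal /
      (volume (ball x r)).toReal) (𝓝[>] 0) (𝓝 (∑ i, d i)) :=
    tendsto_finsetSum _ (fun i _ => hd i)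
  refine tendsto_nhds_unique h1 ?_
  refine Tendsto.congr' ?_ (tendsto_const_nhds (x := (1 : ℝ)))
  filter_upwards [self_mem_nhdsWithin] with r hr
  have hv := volume_ball_pos x hr
  rw [← Finset.sum_div, ← ENNReal.toReal_sum, h.measure_sum i0 hp x r, div_self hv.ne']
  intro i _
  exact (measure_mono inter_subset_right |>.trans_lt measure_ball_lt_top).ne

theorem dens_nonneg {K : Set E3} {x : E3} {d : ℝ} (h : HasDensSet K x d) : 0 ≤ d :=
  ge_of_tendsto' h (fun r => by positivity)

theorem dens_le_one {K : Set E3} {x : E3} {d : ℝ} (h : HasDensSet K x d) : d ≤ 1 := by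
  refine le_of_tendsto' h (fun r => ?_)
  refine div_le_one_of_le₀ ?_ ENNReal.toReal_nonneg
  exact ENNReal.toReal_mono measure_ball_lt_top.ne (measure_mono inter_subset_right)

/-! ### The number of tiles at a point -/

/-- The cone over a small cap lies in a box. -/
theorem cap_volume (v : S2) (ε : ℝ) (hε : ε < 1) (W : Set E3)
    (hW : ∀ y ∈ W, ‖y‖ < 1 ∧ y ≠ 0 ∧ dist (proj y) v < ε) :
    volume W ≤ volume (ball (0 : E3) 1) * ENNReal.ofReal (ε ^ 2) := by
  by_cases hε0 : ε ≤ 0
  · have : W = ∅ := by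
      rw [eq_empty_iff_forall_notMem]
      intro y hy
      have h1 := (hW y hy).2.2
      have h2 := dist_nonneg (x := proj y) (y := v)
      linarith
    rw [this]
    simp
  push Not at hε0
  -- an orthonormal basis with third vector `v`
  obtain ⟨b, hb⟩ : ∃ b : OrthonormalBasis (Fin 3) ℝ E3, b 2 = (v : E3) := by
    have hon : Orthonormal ℝ (({2} : Set (Fin 3)).domRestrict (fun _ : Fin 3 => (v : E3))) := by
      refine ⟨fun i => S2_norm v, ?_⟩
      rintro ⟨i, hi⟩ ⟨j, hj⟩ hne
      exfalso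
      apply hne
      rw [mem_singleton_iff] at hi hj
      subst hi hj
      rfl
    obtain ⟨b, hb⟩ := hon.exists_orthonormalBasis_extension_of_card_eq (by simp)
    exact ⟨b, hb 2 rfl⟩
  let box : Set (Fin 3 → ℝ) := Set.pi univ (fun i => if i = 2 then Ioo (0 : ℝ) 1 else Ioo (-ε) ε)
  have hbox : volume box = ENNReal.ofReal (4 * ε ^ 2) := by
    rw [volume_pi_pi, Fin.prod_univ_three]
    simp only [Fin.isValue, show (0 : Fin 3) ≠ 2 by decide, show (1 : Fin 3) ≠ 2 by decide,
      if_true, if_false, Real.volume_Ioo]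
    rw [← ENNReal.ofReal_mul (by linarith), ← ENNReal.ofReal_mul (by nlinarith)]
    congr 1
    ring
  have hboxm : MeasurableSet box := by
    refine MeasurableSet.univ_pi ?_
    intro i
    split_ifs
    · exact measurableSet_Ioo
    · exact measurableSet_Ioo
  have hmp : MeasurePreserving (fun y : E3 => WithLp.ofLp (b.repr y)) volume volume :=
    (PiLp.volume_preserving_ofLp (Fin 3)).comp b.measurePreserving_repr
  have hsub : W ⊆ (fun y : E3 => WithLp.ofLp (b.repr y)) ⁻¹' box := by
    intro y hy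
    obtain ⟨hy1, hy0, hyv⟩ := hW y hy
    have hny : 0 < ‖y‖ := norm_pos_iff.mpr hy0
    have hdist : ‖((proj y : S2) : E3) - v‖ < ε := by
      rw [← dist_eq_norm]
      exact hyv
    have hinner : ∀ i, ⟪b i, y⟫ = ‖y‖ * ⟪b i, ((proj y : S2) : E3)⟫ := by
      intro i
      conv_lhs => rw [← smul_proj y hy0]
      rw [inner_smul_right]
    rw [mem_preimage, Set.mem_univ_pi]
    intro i
    rw [OrthonormalBasis.repr_apply_apply, hinner i]
    by_cases hi : i = 2
    · subst hi
      rw [if_pos rfl, hb]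
      have h1 : ‖((proj y : S2) : E3) - v‖ ^ 2 = 2 - 2 * ⟪(v : E3), ((proj y : S2) : E3)⟫ := by
        rw [@norm_sub_sq_real, S2_norm, S2_norm, real_inner_comm]
        ring
      have h2 : ‖((proj y : S2) : E3) - v‖ ^ 2 < 1 := by
        have h0 := norm_nonneg (((proj y : S2) : E3) - v)
        nlinarith
      have h3 : 0 < ⟪(v : E3), ((proj y : S2) : E3)⟫ := by linarith
      have h4 : ⟪(v : E3), ((proj y : S2) : E3)⟫ ≤ 1 := by
        have := real_inner_le_norm (v : E3) ((proj y : S2) : E3)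
        rw [S2_norm, S2_norm] at this
        linarith
      constructor
      · exact mul_pos hny h3
      · calc ‖y‖ * ⟪(v : E3), ((proj y : S2) : E3)⟫ ≤ ‖y‖ * 1 :=
              mul_le_mul_of_nonneg_left h4 hny.le
          _ < 1 := by linarith
    · rw [if_neg hi, mem_Ioo, ← abs_lt]
      have h1 : ⟪b i, ((proj y : S2) : E3)⟫ = ⟪b i, ((proj y : S2) : E3) - v⟫ := by
        rw [inner_sub_right, ← hb, b.orthonormal.2 hi, sub_zero]
      have h2 : |⟪b i, ((proj y : S2) : E3)⟫| ≤ ‖((proj y : S2) : E3) - v‖ := by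
        rw [h1]
        have := abs_real_inner_le_norm (b i) (((proj y : S2) : E3) - v)
        rwa [b.orthonormal.1 i, one_mul] at this
      rw [abs_mul, abs_of_pos hny]
      calc ‖y‖ * |⟪b i, ((proj y : S2) : E3)⟫| ≤ 1 * |⟪b i, ((proj y : S2) : E3)⟫| :=
            mul_le_mul_of_nonneg_right hy1.le (abs_nonneg _)
        _ < ε := by rw [one_mul]; exact h2.trans_lt hdist
  calc volume W ≤ volume ((fun y : E3 => WithLp.ofLp (b.repr y)) ⁻¹' box) := measure_mono hsub
    _ = volume box := hmp.measure_preimage hboxm.nullMeasurableSet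
    _ = ENNReal.ofReal 4 * ENNReal.ofReal (ε ^ 2) := by
        rw [hbox, ENNReal.ofReal_mul (by norm_num)]
    _ ≤ volume (ball (0 : E3) 1) * ENNReal.ofReal (ε ^ 2) := by
        refine mul_le_mul_left ?_ _
        rw [EuclideanSpace.volume_ball_fin_three]
        rw [← ENNReal.ofReal_pow zero_le_one, ← ENNReal.ofReal_mul (by norm_num)]
        refine ENNReal.ofReal_le_ofReal ?_
        have := Real.pi_gt_three
        linarith

end Run7.h801
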