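import Mathlib
import Pool.Agent.Run7.h801.Part
import Pool.Agent.Run7.h801.Lin

/-!
# The corner product inequality
-/

open MeasureTheory Metric Set Filter Topology
open scoped RealInnerProductSpace

namespace Run7.h801

variable {ε : ℝ} {N : ℕ} {T : Fin N → Set S2}

theorem IsCongruentTiling.volume_unit (h : IsCongruentTiling ε T) (i0 : Fin N)
    (hp : OnGreatCircles (T i0)) (i : Fin N) :
    (N : ℝ) * (volume (cone (T i) ∩ ball (0 : E3) 1)).toReal =
      (volume (ball (0 : E3) 1)).toReal := by
  obtain ⟨g, hg⟩ := h.exists_isom i0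
  have heq : ∀ j, volume (cone (T j) ∩ ball (0 : E3) 1) =
      volume (cone (T i0) ∩ ball (0 : E3) 1) := by
    intro j
    have := volume_cone_image (T i0) (g j) 0 1
    rw [map_zero, ← hg j] at this
    exact this
  have hsum := h.measure_sum i0 hp 0 1
  rw [← hsum, ENNReal.toReal_sum]
  · have : ∀ j ∈ Finset.univ, (volume (cone (T j) ∩ ball (0 : E3) 1)).toReal =
        (volume (cone (T i) ∩ ball (0 : E3) 1)).toReal := by
      intro j _
      rw [heq j, heq i]
    rw [Finset.sum_congr rfl this]
    simp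
  · intro j _
    exact (measure_mono inter_subset_right |>.trans_lt measure_ball_lt_top).ne

open Classical in
theorem IsCongruentTiling.count_le (h : IsCongruentTiling ε T) (i0 : Fin N)
    (hp : OnGreatCircles (T i0)) (v : S2) :
    ((Finset.univ.filter (fun i => v ∈ T i)).card : ℝ) ≤ N * ε ^ 2 := by
  rcases le_or_gt 1 ε with h1 | h1
  · have h2 : ((Finset.univ.filter (fun i => v ∈ T i)).card : ℝ) ≤ N := by
      have := Finset.card_filter_le (Finset.univ : Finset (Fin N)) (fun i => v ∈ T i)
      rw [Finset.card_univ, Fintype.card_fin] at this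
      exact_mod_cast this
    have h3 : (1 : ℝ) ≤ ε ^ 2 := by nlinarith
    have h4 : (0 : ℝ) ≤ N := Nat.cast_nonneg N
    nlinarith
  · let I := Finset.univ.filter (fun i => v ∈ T i)
    have hW := cap_volume v ε h1 (⋃ i ∈ I, (cone (T i) ∩ ball (0 : E3) 1)) (by
      intro y hy
      simp only [mem_iUnion, exists_prop] at hy
      obtain ⟨i, hi, hc, hb⟩ := hy
      have hvi : v ∈ T i := (Finset.mem_filter.mp hi).2
      rw [mem_cone_iff] at hc
      refine ⟨by simpa using hb, hc.1, ?_⟩
      exact (dist_le_diam_of_mem (Metric.isBounded_of_compactSpace) hc.2 hvi).trans_lt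
        (h.diam_lt i))
    have hunion : volume (⋃ i ∈ I, (cone (T i) ∩ ball (0 : E3) 1)) =
        ∑ i ∈ I, volume (cone (T i) ∩ ball (0 : E3) 1) := by
      refine measure_biUnion_finset₀ ?_ ?_
      · intro i _ j _ hij
        exact (h.aedisjoint i0 hp hij).mono inter_subset_left inter_subset_left
      · intro i _
        exact (cone_nullMeasurable (h.onGreatCircles i0 hp i)).inter
          measurableSet_ball.nullMeasurableSet
    rw [hunion] at hW
    have hV := volume_ball_pos (0 : E3) one_pos
    have hfin : ∀ i ∈ I, volume (cone (T i) ∩ ball (0 : E3) 1) ≠ ⊤ := fun i _ =>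
      (measure_mono inter_subset_right |>.trans_lt measure_ball_lt_top).ne
    have hreal : ∑ i ∈ I, (volume (cone (T i) ∩ ball (0 : E3) 1)).toReal ≤
        (volume (ball (0 : E3) 1)).toReal * ε ^ 2 := by
      rw [← ENNReal.toReal_sum hfin]
      have := ENNReal.toReal_mono (ENNReal.mul_ne_top measure_ball_lt_top.ne
        ENNReal.ofReal_ne_top) hW
      rwa [ENNReal.toReal_mul, ENNReal.toReal_ofReal (sq_nonneg ε)] at this
    have hN : (0 : ℝ) < N := by
      have : 0 < N := Fin.pos i0
      exact_mod_cast this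
    have h5 : ∀ i ∈ I, (volume (cone (T i) ∩ ball (0 : E3) 1)).toReal =
        (volume (ball (0 : E3) 1)).toReal / N := by
      intro i _
      rw [← h.volume_unit i0 hp i]
      field_simp
    rw [Finset.sum_congr rfl h5, Finset.sum_const, nsmul_eq_mul] at hreal
    have h6 : (I.card : ℝ) * (volume (ball (0 : E3) 1)).toReal ≤
        N * ε ^ 2 * (volume (ball (0 : E3) 1)).toReal := by
      have := mul_le_mul_of_nonneg_left hreal hN.le
      calc (I.card : ℝ) * (volume (ball (0 : E3) 1)).toReal
          = N * (I.card * ((volume (ball (0 : E3) 1)).toReal / N)) := by field_simp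
        _ ≤ N * ((volume (ball (0 : E3) 1)).toReal * ε ^ 2) := this
        _ = N * ε ^ 2 * (volume (ball (0 : E3) 1)).toReal := by ring
    exact le_of_mul_le_mul_right h6 hV

theorem corners_iff {A : Set S2} {D : E3 → ℝ} (hD : ∀ x, HasDensSet (cone A) x (D x)) (x : S2) :
    interiorAngle A x = 2 * Real.pi * D x := by
  unfold interiorAngle
  congr 1
  exact (hD x).limUnder_eq

theorem notMem_corners_iff {A : Set S2} {D : E3 → ℝ} (hD : ∀ x, HasDensSet (cone A) x (D x))
    (x : S2) : x ∉ corners A ↔ ∃ z : ℤ, 2 * D x = z := by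
  have hpi := Real.pi_pos
  unfold corners
  rw [mem_ofPred_eq, corners_iff hD x]
  constructor
  · intro h
    by_contra hz
    push Not at hz
    apply h
    refine ⟨?_, ?_, ?_⟩
    · intro h0
      have : D x = 0 := by
        rcases mul_eq_zero.mp h0 with h1 | h1
        · linarith
        · exact h1
      exact hz 0 (by simp [this])
    · intro h0
      have : 2 * D x = 1 := by
        have h1 : Real.pi * (2 * D x) = Real.pi * 1 := by linarith
        exact mul_left_cancel₀ hpi.ne' h1
      exact hz 1 (by simp [this])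
    · intro h0
      have : 2 * D x = 2 := by
        have h1 : Real.pi * (2 * D x) = Real.pi * 2 := by linarith
        exact mul_left_cancel₀ hpi.ne' h1
      exact hz 2 (by simp [this])
  · rintro ⟨z, hz⟩ ⟨h1, h2, h3⟩
    have hd0 := dens_nonneg (hD x)
    have hd1 := dens_le_one (hD x)
    have hz0 : (0 : ℝ) ≤ z := by linarith
    have hz2 : (z : ℝ) ≤ 2 := by linarith
    have hz0' : 0 ≤ z := by exact_mod_cast hz0
    have hz2' : z ≤ 2 := by exact_mod_cast hz2
    have : z = 0 ∨ z = 1 ∨ z = 2 := by omega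
    rcases this with rfl | rfl | rfl
    · apply h1
      have : D x = 0 := by push_cast at hz; linarith
      rw [this, mul_zero]
    · apply h2
      have : D x = 1 / 2 := by push_cast at hz; linarith
      rw [this]; ring
    · apply h3
      have : D x = 1 := by push_cast at hz; linarith
      rw [this]; ring

/-- For sets with boundary on great circles the limit defining the interior angle exists. -/
theorem interiorAngle_spec {A : Set S2} (hp : OnGreatCircles A) (x : S2) :
    HasDensSet (cone A) x (interiorAngle A x / (2 * Real.pi)) := by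
  obtain ⟨s, hne, hs, hfr⟩ := hp.exists_nonempty
  obtain ⟨X, hX⟩ := exists_cornerSet s
  obtain ⟨-, D, hD, -⟩ := cellular_main s X hX hs _ (cellular_cone A s hne hfr)
  rw [corners_iff hD x]
  have : 2 * Real.pi * D x / (2 * Real.pi) = D x := by
    have := Real.pi_pos
    field_simp
  rw [this]
  exact hD x

/-- **Main inequality.** -/
theorem IsCongruentTiling.corner_product (h : IsCongruentTiling ε T) (i0 : Fin N)
    (hp : OnGreatCircles (T i0)) :
    ∃ C : Finset S2, (C : Set S2) = corners (T i0) ∧ ∀ J ⊆ C,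
      N * ∏ x ∈ C \ J, (interiorAngle (T i0) x / (2 * Real.pi)) ≤
        4 * ((C.card : ℝ) * (N * ε ^ 2)) ^ J.card := by
  classical
  obtain ⟨g, hg⟩ := h.exists_isom i0
  obtain ⟨s, hne, hs, hfr⟩ := hp.exists_nonempty
  obtain ⟨X, hX⟩ := exists_cornerSet s
  obtain ⟨-, D, hD, hDX, z, hz⟩ := cellular_main s X hX hs _ (cellular_cone (T i0) s hne hfr)
  have hDcorner := notMem_corners_iff hD
  have hN0 : 0 < N := Fin.pos i0
  have hN : (0 : ℝ) < N := by exact_mod_cast hN0
  -- the corners are finite
  have hfin : (corners (T i0)).Finite := by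
    have hsub : corners (T i0) ⊆ Subtype.val ⁻¹' (X : Set E3) := by
      intro x hx
      by_contra hxX
      exact (hDcorner x).2 (hDX x (S2_norm x) hxX) hx
    exact (X.finite_toSet.preimage Subtype.val_injective.injOn).subset hsub
  refine ⟨hfin.toFinset, by simp, ?_⟩
  intro J hJC
  set C : Finset S2 := hfin.toFinset with hC
  have hCmem : ∀ x, x ∈ C ↔ x ∈ corners (T i0) := fun x => by simp [hC]
  -- densities at corners
  have hdpos : ∀ c ∈ C, 0 < D (c : E3) := by
    intro c hc
    rcases (dens_nonneg (hD c)).eq_or_lt with h0 | h0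
    · exfalso
      exact (hDcorner c).2 ⟨0, by rw [← h0]; simp⟩ ((hCmem c).1 hc)
    · exact h0
  have hCA : ∀ c ∈ C, c ∈ T i0 := by
    intro c hc
    by_contra hcA
    have h0 := dens_of_notMem (T i0) (h.isClosed i0) c hcA
    have h1 : D (c : E3) = 0 := tendsto_nhds_unique (hD c) h0
    exact (hdpos c hc).ne' h1
  -- the vertex equations
  have hvertex : ∀ v : E3, ∑ i, D ((g i).symm v) = 1 := by
    intro v
    refine h.dens_sum i0 hp v (fun i => D ((g i).symm v)) ?_
    intro i
    rw [hg i]
    have h1 := (densSet_image (T i0) (g i) ((g i).symm v) (D ((g i).symm v))).2 (hD _)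
    rwa [LinearIsometryEquiv.apply_symm_apply] at h1
  have hD0 : D 0 = 1 / N := by
    have h1 := hvertex 0
    simp only [map_zero, Finset.sum_const, Finset.card_univ, Fintype.card_fin, nsmul_eq_mul] at h1
    field_simp
    linarith
  -- the multiplicities
  let V : Finset S2 := (Finset.univ ×ˢ C).image (fun p : Fin N × S2 => sphHomeo (g p.1) p.2)
  let t : V → C → ℕ := fun v c => (Finset.univ.filter (fun i => sphHomeo (g i) (c : S2) = v)).card
  have hsumt : ∀ v : V, ∑ c : C, (t v c : ℝ) * D ((c : S2) : E3) =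
      ∑ i, if (sphHomeo (g i)).symm (v : S2) ∈ C then D ((g i).symm ((v : S2) : E3)) else 0 := by
    intro v
    have h1 : ∀ c : C, (t v c : ℝ) * D ((c : S2) : E3) =
        ∑ i, if sphHomeo (g i) (c : S2) = v then D ((c : S2) : E3) else 0 := by
      intro c
      rw [← Finset.sum_filter, Finset.sum_const, nsmul_eq_mul]
    simp only [h1]
    rw [Finset.sum_comm]
    refine Finset.sum_congr rfl ?_
    intro i _
    have h2 : ∀ c : C, (sphHomeo (g i) (c : S2) = v) ↔ ((c : S2) = (sphHomeo (g i)).symm v) := by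
      intro c
      constructor
      · intro h; rw [← h]; simp
      · intro h; rw [h]; simp
    simp only [h2]
    rw [Finset.sum_coe_sort C (fun c => if c = (sphHomeo (g i)).symm (v : S2) then
      D (c : E3) else 0), Finset.sum_ite_eq']
    rfl
  have hrow : ∀ v : V, ∑ c : C, (t v c : ℝ) * D ((c : S2) : E3) ≤ 1 := by
    intro v
    rw [hsumt v]
    refine le_trans (Finset.sum_le_sum ?_) (hvertex ((v : S2) : E3)).le
    intro i _
    split_ifs
    · exact le_refl _
    · exact dens_nonneg (hD _)
  have hint : ∀ v : V, ∃ z : ℤ, 2 * ∑ c : C, (t v c : ℝ) * D ((c : S2) : E3) = z := by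
    intro v
    rw [hsumt v]
    have h1 : ∀ i, ∃ y : ℤ, 2 * (D ((g i).symm ((v : S2) : E3)) -
        if (sphHomeo (g i)).symm (v : S2) ∈ C then D ((g i).symm ((v : S2) : E3)) else 0) = y := by
      intro i
      split_ifs with hm
      · exact ⟨0, by simp⟩
      · rw [sub_zero]
        rw [hCmem] at hm
        exact (hDcorner _).1 hm
    choose y hy using h1
    refine ⟨2 - ∑ i, y i, ?_⟩
    push_cast
    have h2 : ∑ i, (y i : ℝ) = 2 * (1 - ∑ i, if (sphHomeo (g i)).symm (v : S2) ∈ C then
        D ((g i).symm ((v : S2) : E3)) else 0) := by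
      have h3 := Finset.sum_congr rfl (fun i (_ : i ∈ Finset.univ) => hy i)
      rw [← Finset.mul_sum, Finset.sum_sub_distrib, hvertex ((v : S2) : E3)] at h3
      exact h3.symm
    rw [h2]
    ring
  have hcol : ∀ c : C, ∑ v : V, t v c = N := by
    intro c
    have h1 : (Finset.univ : Finset (Fin N)).card =
        ∑ v ∈ V, (Finset.univ.filter (fun i => sphHomeo (g i) (c : S2) = v)).card := by
      refine Finset.card_eq_sum_card_fiberwise ?_
      intro i _
      exact Finset.mem_coe.mpr (Finset.mem_image.mpr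
        ⟨(i, (c : S2)), Finset.mem_product.mpr ⟨Finset.mem_univ _, c.2⟩, rfl⟩)
    rw [Finset.card_univ, Fintype.card_fin] at h1
    rw [h1, ← Finset.sum_coe_sort V]
  have hb : ∀ v : V, ∀ c : C, (t v c : ℝ) ≤ N * ε ^ 2 := by
    intro v c
    refine le_trans ?_ (h.count_le i0 hp (v : S2))
    have : t v c ≤ (Finset.univ.filter (fun i => (v : S2) ∈ T i)).card := by
      refine Finset.card_le_card ?_
      intro i hi
      rw [Finset.mem_filter] at hi ⊢
      refine ⟨hi.1, ?_⟩
      rw [← hi.2, hg i]
      exact ⟨c, hCA c c.2, rfl⟩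
    exact_mod_cast this
  have hb1 : (1 : ℝ) ≤ N * ε ^ 2 := by
    obtain ⟨i, hi⟩ := mem_iUnion.mp (h.cover ▸ mem_univ basePt : basePt ∈ ⋃ i, T i)
    refine le_trans ?_ (h.count_le i0 hp basePt)
    have : 1 ≤ (Finset.univ.filter (fun i => basePt ∈ T i)).card :=
      Finset.card_pos.mpr ⟨i, Finset.mem_filter.mpr ⟨Finset.mem_univ _, hi⟩⟩
    exact_mod_cast this
  let J' : Finset C := Finset.univ.filter (fun c : C => (c : S2) ∈ J)
  have hJ'card : J'.card = J.card := by
    refine Finset.card_bij (fun (c : C) _ => (c : S2)) ?_ ?_ ?_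
    · intro c hc
      exact (Finset.mem_filter.mp hc).2
    · intro a _ b _ hab
      exact Subtype.ext hab
    · intro b hb
      exact ⟨⟨b, hJC hb⟩, Finset.mem_filter.mpr ⟨Finset.mem_univ _, hb⟩, rfl⟩
  obtain ⟨Q, hQ0, ⟨y, hy⟩, hQb⟩ := exists_det t (fun c : C => D ((c : S2) : E3))
    (fun c => hdpos c c.2) (fun c => dens_le_one (hD _)) hrow hint N hN0 hcol J'
    (N * ε ^ 2) hb1 (fun v c _ => hb v c)
  -- the Girard congruence over the corners
  have hgirard : ∃ w : ℤ, 4 * D 0 - 2 * ∑ c ∈ C, D (c : E3) = w := by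
    have hCX : C.image (fun c : S2 => (c : E3)) ⊆ X := by
      intro x hx
      obtain ⟨c, hc, rfl⟩ := Finset.mem_image.mp hx
      by_contra hxX
      exact (hDcorner c).2 (hDX c (S2_norm c) hxX) ((hCmem c).1 hc)
    obtain ⟨w, hw⟩ := sum_split X (C.image (fun c : S2 => (c : E3))) D hCX (by
      intro x hxX hxC
      have hx1 := hX.unit x hxX
      let x' : S2 := ⟨x, by simpa using hx1⟩
      have hx' : x' ∉ corners (T i0) := by
        intro hc
        exact hxC (Finset.mem_image.mpr ⟨x', (hCmem x').2 hc, rfl⟩)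
      exact (hDcorner x').1 hx')
    rw [Finset.sum_image (fun a _ b _ hab => Subtype.ext hab)] at hw
    refine ⟨z + w, ?_⟩
    push_cast
    linarith
  obtain ⟨w, hw⟩ := hgirard
  have hcoe : ∑ c : C, D ((c : S2) : E3) = ∑ c ∈ C, D (c : E3) :=
    Finset.sum_coe_sort C (fun c => D (c : E3))
  rw [hcoe] at hy
  -- `4 * Q / N` is a nonzero integer
  have hint2 : 4 * (Q : ℝ) / N = ((Q * w + y : ℤ) : ℝ) := by
    push_cast
    rw [← hw, ← hy, hD0]
    ring
  have hge : (1 : ℝ) ≤ |4 * (Q : ℝ) / N| := by
    rw [hint2]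
    have hne0 : (Q * w + y) ≠ 0 := by
      intro h0
      rw [h0, Int.cast_zero] at hint2
      have : (Q : ℝ) ≠ 0 := by exact_mod_cast hQ0
      have h4 : 4 * (Q : ℝ) / N ≠ 0 := div_ne_zero (mul_ne_zero (by norm_num) this) hN.ne'
      exact h4 hint2
    exact_mod_cast Int.one_le_abs hne0
  have hNQ : (N : ℝ) ≤ 4 * |(Q : ℝ)| := by
    rw [abs_div, abs_mul, abs_of_pos hN, abs_of_pos (by norm_num : (0 : ℝ) < 4)] at hge
    rw [le_div_iff₀ hN] at hge
    linarith
  -- the product
  have hprod : ∏ x ∈ C \ J, (interiorAngle (T i0) x / (2 * Real.pi)) =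
      ∏ c ∈ J'ᶜ, D ((c : S2) : E3) := by
    have h1 : ∀ x ∈ C \ J, interiorAngle (T i0) x / (2 * Real.pi) = D (x : E3) := by
      intro x _
      rw [corners_iff hD x]
      have := Real.pi_pos
      field_simp
    rw [Finset.prod_congr rfl h1]
    symm
    refine Finset.prod_bij (fun (c : C) _ => (c : S2)) ?_ ?_ ?_ ?_
    · intro c hc
      rw [Finset.mem_compl, Finset.mem_filter, not_and] at hc
      rw [Finset.mem_sdiff]
      exact ⟨c.2, hc (Finset.mem_univ _)⟩
    · intro a _ b _ hab
      exact Subtype.ext hab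
    · intro b hb
      rw [Finset.mem_sdiff] at hb
      refine ⟨⟨b, hb.1⟩, ?_, rfl⟩
      rw [Finset.mem_compl, Finset.mem_filter, not_and]
      exact fun _ => hb.2
    · intro c _
      rfl
  rw [hprod]
  set P := ∏ c ∈ J'ᶜ, D ((c : S2) : E3) with hP
  have hP0 : 0 ≤ P := Finset.prod_nonneg (fun c _ => dens_nonneg (hD _))
  calc (N : ℝ) * P ≤ 4 * |(Q : ℝ)| * P := mul_le_mul_of_nonneg_right hNQ hP0
    _ = 4 * (|(Q : ℝ)| * P) := by ring
    _ ≤ 4 * (Fintype.card C * (N * ε ^ 2)) ^ J'.card :=
        mul_le_mul_of_nonneg_left hQb (by norm_num)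
    _ = 4 * ((C.card : ℝ) * (N * ε ^ 2)) ^ J.card := by
        rw [Fintype.card_coe, hJ'card]

end Run7.h801
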